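import Pool.Agent.W_MP_f2b0dc_al.Defs

/-!
# Weak soficity: basic definitions of the local criterion
-/

namespace Pool.Agent.W_f2b0dc_h15

open Pool.Agent.W_MP_f2b0dc_al

universe u v w

/-- `P` has no nontrivial finite quotient. -/
def NoFiniteQuotient (P : Type*) [Group P] : Prop :=
  ∀ (E : Type) (_ : Group E) (_ : Finite E) (f : P →* E), ∀ x, f x = 1

/-- the families `q` of elements of `Q` such that `a` lies (in `Q`) in the subgroup generated
by the conjugates `(q i)⁻¹ * g i * q i` -/
def Sol {F : Type u} [Group F] {ι : Type} (a : F) (g : ι → F) {Q : Type} [Group Q]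
    (φ : F →* Q) : Set (ι → Q) :=
  {q | φ a ∈ Subgroup.closure (Set.range fun i => (q i)⁻¹ * φ (g i) * q i)}

/-- in every finite quotient, `a` lies in a subgroup generated by conjugates of the `g i` -/
def Bad {F : Type u} [Group F] {ι : Type} (a : F) (g : ι → F) : Prop :=
  ∀ (Q : Type) (_ : Group Q) (_ : Finite Q) (φ : F →* Q), (Sol a g φ).Nonempty

/-- a solution which lifts to every finite quotient above `Q` -/
def Liftable {F : Type u} [Group F] {ι : Type} (a : F) (g : ι → F) {Q : Type} [Group Q]
    (φ : F →* Q) (q : ι → Q) : Prop :=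
  ∀ (Q' : Type) (_ : Group Q') (_ : Finite Q') (φ' : F →* Q') (ρ : Q' →* Q), ρ.comp φ' = φ →
    ∃ q' ∈ Sol a g φ', (fun i => ρ (q' i)) = q

/-- `θ` is multiplicative up to `ε` on `F₀` -/
def Apx {G : Type u} [Group G] {E : Type} [Group E] (d : E → E → ℝ) (θ : G → E)
    (F₀ : Finset G) (ε : ℝ) : Prop :=
  ∀ g ∈ F₀, ∀ h ∈ F₀, g * h ∈ F₀ → d (θ (g * h)) (θ g * θ h) ≤ ε

/-- evaluation of words in the elements of `G` -/
def ev {G : Type u} [Group G] : FreeGroup G →* G := FreeGroup.lift id

@[simp] lemma ev_of {G : Type u} [Group G] (g : G) : ev (FreeGroup.of g) = g := by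
  simp [ev]

/-- The statement on finite groups which follows from the theorem of Nikolov and Segal
(Generators and commutators in finite groups; abstract quotients of compact groups, 2012):
if a finite group `E` is generated by `m` elements `u i`, then every element of the commutator
subgroup is a product of at most `f m` conjugates of the elements `(u i)^(±1)`. -/
def NikolovSegal : Prop :=
  ∀ m : ℕ, ∃ f : ℕ, ∀ (E : Type) (_ : Group E) (_ : Finite E) (u : Fin m → E),
    Subgroup.closure (Set.range u) = ⊤ → ∀ x ∈ commutator E,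
      ∃ l : List E, l.length ≤ f ∧
        (∀ y ∈ l, ∃ i : Fin m, ∃ g : E, y = g * u i * g⁻¹ ∨ y = g * (u i)⁻¹ * g⁻¹) ∧ l.prod = x

end Pool.Agent.W_f2b0dc_h15
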