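import Pool.Agent.W_f2b0dc_h15.Trace

/-!
# The cocycle of an approximate homomorphism, telescoping
-/

namespace Pool.Agent.W_f2b0dc_h15

open Pool.Agent.W_MP_f2b0dc_al

universe u v w

section Metric

variable {E : Type} [Group E] {d : E → E → ℝ} (hd : IsBiInvMetric d)

include hd

lemma bim_self (a : E) : d a a = 0 := (hd.eq_zero a a).2 rfl

lemma bim_nonneg (a b : E) : 0 ≤ d a b := by
  have h1 := hd.triangle a b a
  rw [bim_self hd, hd.symm b a] at h1
  linarith

lemma bim_mul_left_one (a c : E) : d (c * a) a = d c 1 := by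
  have := hd.right a c 1
  rwa [one_mul] at this

lemma bim_mul_right (a c e : E) : d (a * e) (c * e) = d a c := hd.right e a c

lemma bim_conj (a c : E) : d (c⁻¹ * a * c) 1 = d a 1 := by
  have h1 := hd.right c (c⁻¹ * a) c⁻¹
  rw [inv_mul_cancel] at h1
  have h2 := hd.left c⁻¹ a 1
  rw [mul_one] at h2
  rw [h1, h2]

end Metric

variable {G : Type u} [Group G] {Q X J : Type} [Group Q] [MulAction Q X] {φ : FreeGroup G →* Q}
  {b : X} {wd : J → List (G × Bool)} {x : J → X}

open Classical in
/-- the cochain given by `θ` on the edges of the component of `b` -/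
noncomputable def coc (φ : FreeGroup G →* Q) (b : X) (wd : J → List (G × Bool)) (x : J → X)
    (s : X → FreeGroup G) {E : Type} [Group E] (θ : G → E) (y : X) (t : G) : E :=
  if Edge φ wd x y t ∧ ∃ f, Path φ b wd x f y then
    θ (ev ((s (φ (FreeGroup.of t) • y))⁻¹ * FreeGroup.of t * s y)) else 1

variable {s : X → FreeGroup G} (hs1 : s b = 1)
  (hs : ∀ y, (∃ f, Path φ b wd x f y) → Path φ b wd x (s y) y)

include hs

lemma mem_map_loops {f : FreeGroup G} {y : X} (h : Path φ b wd x f y) :
    ev ((s y)⁻¹ * f) ∈ (loops φ b wd x).map ev :=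
  ⟨_, Path.inv_mul (hs y ⟨f, h⟩) h, rfl⟩

include hs1

lemma tele {f : FreeGroup G} {y : X} (h : Path φ b wd x f y) :
    ∃ F₀ : Finset G, (F₀ : Set G) ⊆ (loops φ b wd x).map ev ∧ ∃ C : ℝ, 0 < C ∧
      ∀ (E : Type) (_ : Group E) (d : E → E → ℝ) (θ : G → E) (ε : ℝ),
        IsBiInvMetric d → 0 ≤ ε → Apx d θ F₀ ε →
        d ((Wr.lift φ (coc φ b wd x s θ) f).u b) (θ (ev ((s y)⁻¹ * f))) ≤ C * ε := by
  classical
  induction h with
  | one =>
    refine ⟨{1}, ?_, 1, one_pos, ?_⟩
    · intro g hg
      rw [Finset.coe_singleton, Set.mem_singleton_iff] at hg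
      rw [hg]
      exact one_mem _
    · intro E _ d θ ε hd _ hA
      have h1 := hA 1 (by simp) 1 (by simp) (by simp)
      have h2 := hd.left (θ 1) 1 (θ 1)
      rw [mul_one] at h1 h2
      rw [hs1, map_one, inv_one, one_mul, map_one, Wr.one_u, one_mul, ← h2]
      exact h1
  | pos f y t hp he ih =>
    obtain ⟨F₀, hF₀, C, hC, ih⟩ := ih
    set g1 := ev ((s (φ (FreeGroup.of t) • y))⁻¹ * FreeGroup.of t * s y) with hg1
    set g2 := ev ((s y)⁻¹ * f) with hg2
    have hprod : g1 * g2 = ev ((s (φ (FreeGroup.of t) • y))⁻¹ * (FreeGroup.of t * f)) := by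
      rw [hg1, hg2, ← map_mul]
      congr 1
      group
    have m2 : g2 ∈ (loops φ b wd x).map ev := mem_map_loops hs hp
    have m3 : g1 * g2 ∈ (loops φ b wd x).map ev := by
      rw [hprod]
      exact mem_map_loops hs (Path.pos _ _ _ hp he)
    have m1 : g1 ∈ (loops φ b wd x).map ev := by
      have := mul_mem m3 (inv_mem m2)
      rwa [mul_inv_cancel_right] at this
    refine ⟨F₀ ∪ {g1, g2, g1 * g2}, ?_, C + 1, by linarith, ?_⟩
    · intro g hg
      simp only [Finset.coe_union, Finset.coe_insert, Finset.coe_singleton, Set.mem_union,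
        Set.mem_insert_iff, Set.mem_singleton_iff] at hg
      rcases hg with hg | rfl | rfl | rfl
      · exact hF₀ hg
      · exact m1
      · exact m2
      · exact m3
    · intro E _ d θ ε hd hε hA
      have hA' : Apx d θ F₀ ε := fun g hg h hh hgh => hA g (Finset.mem_union_left _ hg) h
        (Finset.mem_union_left _ hh) (Finset.mem_union_left _ hgh)
      have h1 := ih E _ d θ ε hd hε hA'
      have h2 := hA g1 (by simp) g2 (by simp) (by simp)
      rw [Wr.lift_of_mul_u, hp.smul, coc, if_pos ⟨he, f, hp⟩, ← hg1, ← hprod]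
      calc d (θ g1 * (Wr.lift φ (coc φ b wd x s θ) f).u b) (θ (g1 * g2))
          ≤ d (θ g1 * (Wr.lift φ (coc φ b wd x s θ) f).u b) (θ g1 * θ g2)
            + d (θ g1 * θ g2) (θ (g1 * g2)) := hd.triangle _ _ _
        _ ≤ C * ε + ε := by
          rw [hd.left, hd.symm (θ g1 * θ g2)]
          exact add_le_add h1 h2
        _ = (C + 1) * ε := by ring
  | neg f y t hp he ih =>
    obtain ⟨F₀, hF₀, C, hC, ih⟩ := ih
    set g1 := ev ((s (φ (FreeGroup.of t) • y))⁻¹ * FreeGroup.of t * s y) with hg1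
    set g2 := ev ((s y)⁻¹ * ((FreeGroup.of t)⁻¹ * f)) with hg2
    have hprod : g1 * g2 = ev ((s (φ (FreeGroup.of t) • y))⁻¹ * f) := by
      rw [hg1, hg2, ← map_mul]
      congr 1
      group
    have hp' := Path.neg _ _ _ hp he
    have m2 : g2 ∈ (loops φ b wd x).map ev := mem_map_loops hs hp'
    have m3 : g1 * g2 ∈ (loops φ b wd x).map ev := by
      rw [hprod]
      exact mem_map_loops hs hp
    have m1 : g1 ∈ (loops φ b wd x).map ev := by
      have := mul_mem m3 (inv_mem m2)
      rwa [mul_inv_cancel_right] at this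
    refine ⟨F₀ ∪ {g1, g2, g1 * g2}, ?_, C + 1, by linarith, ?_⟩
    · intro g hg
      simp only [Finset.coe_union, Finset.coe_insert, Finset.coe_singleton, Set.mem_union,
        Set.mem_insert_iff, Set.mem_singleton_iff] at hg
      rcases hg with hg | rfl | rfl | rfl
      · exact hF₀ hg
      · exact m1
      · exact m2
      · exact m3
    · intro E _ d θ ε hd hε hA
      have hA' : Apx d θ F₀ ε := fun g hg h hh hgh => hA g (Finset.mem_union_left _ hg) h
        (Finset.mem_union_left _ hh) (Finset.mem_union_left _ hgh)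
      have h1 := ih E _ d θ ε hd hε hA'
      have h2 := hA g1 (by simp) g2 (by simp) (by simp)
      rw [Wr.lift_inv_of_mul_u, hp.smul, inv_smul_smul, coc, if_pos ⟨he, _, hp'⟩, ← hg1]
      rw [← hprod] at h1
      set A := (Wr.lift φ (coc φ b wd x s θ) f).u b
      calc d ((θ g1)⁻¹ * A) (θ g2)
          = d A (θ g1 * θ g2) := by
            rw [← hd.left (θ g1) ((θ g1)⁻¹ * A) (θ g2), mul_inv_cancel_left]
        _ ≤ d A (θ (g1 * g2)) + d (θ (g1 * g2)) (θ g1 * θ g2) := hd.triangle _ _ _
        _ ≤ C * ε + ε := add_le_add h1 h2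
        _ = (C + 1) * ε := by ring

/-- the value of the cocycle on a closed word in the kernel is small -/
lemma value_small (j : J) (hcl : φ (FreeGroup.mk (wd j)) • x j = x j)
    (hker : ev (FreeGroup.mk (wd j)) = 1) :
    ∃ F₀ : Finset G, (F₀ : Set G) ⊆ (loops φ b wd x).map ev ∧ ∃ C : ℝ, 0 < C ∧
      ∀ (E : Type) (_ : Group E) (d : E → E → ℝ) (θ : G → E) (ε : ℝ),
        IsBiInvMetric d → 0 ≤ ε → Apx d θ F₀ ε →
        d ((Wr.lift φ (coc φ b wd x s θ) (FreeGroup.mk (wd j))).u (x j)) 1 ≤ C * ε := by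
  classical
  by_cases h : ∃ f, Path φ b wd x f (x j)
  · have p1 := hs _ h
    have p2 := path_trace p1 0
    rw [List.drop_zero, vtx_zero, hcl] at p2
    obtain ⟨F₁, hF₁, C₁, hC₁, h₁⟩ := tele hs1 hs p1
    obtain ⟨F₂, hF₂, C₂, hC₂, h₂⟩ := tele hs1 hs p2
    refine ⟨F₁ ∪ F₂, ?_, C₁ + C₂, by linarith, ?_⟩
    · rw [Finset.coe_union]
      exact Set.union_subset hF₁ hF₂
    · intro E _ d θ ε hd hε hA
      have a1 := h₁ E _ d θ ε hd hε (fun g hg h hh hgh => hA g (Finset.mem_union_left _ hg) h
        (Finset.mem_union_left _ hh) (Finset.mem_union_left _ hgh))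
      have a2 := h₂ E _ d θ ε hd hε (fun g hg h hh hgh => hA g (Finset.mem_union_right _ hg) h
        (Finset.mem_union_right _ hh) (Finset.mem_union_right _ hgh))
      rw [map_mul, Wr.mul_u, Wr.lift_r, p1.smul] at a2
      have e1 : ev ((s (x j))⁻¹ * (FreeGroup.mk (wd j) * s (x j))) = ev ((s (x j))⁻¹ * s (x j)) := by
        rw [map_mul, map_mul, hker, one_mul, ← map_mul]
      rw [e1] at a2
      set A := (Wr.lift φ (coc φ b wd x s θ) (s (x j))).u b
      set B := (Wr.lift φ (coc φ b wd x s θ) (FreeGroup.mk (wd j))).u (x j)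
      set T := θ (ev ((s (x j))⁻¹ * s (x j)))
      calc d B 1 = d (B * A) A := (bim_mul_left_one hd A B).symm
        _ ≤ d (B * A) T + d T A := hd.triangle _ _ _
        _ ≤ C₂ * ε + C₁ * ε := by
          rw [hd.symm T A]
          exact add_le_add a2 a1
        _ = (C₁ + C₂) * ε := by ring
  · refine ⟨∅, by simp, 1, one_pos, ?_⟩
    intro E _ d θ ε hd hε _
    have key : ∀ k, (Wr.lift φ (coc φ b wd x s θ) (FreeGroup.mk ((wd j).drop k))).u (x j) = 1 := by
      intro k
      refine down_induction (n := (wd j).length) (p := fun k =>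
        (Wr.lift φ (coc φ b wd x s θ) (FreeGroup.mk ((wd j).drop k))).u (x j) = 1) ?_ ?_ k
      · intro k hk
        rw [mk_drop_len _ hk, map_one, Wr.one_u]
      · intro k hk ih
        obtain ⟨t, e, hw⟩ : ∃ t e, (wd j)[k] = (t, e) := ⟨_, _, rfl⟩
        cases e with
        | true =>
          rw [mk_drop_true hk hw, Wr.lift_of_mul_u, ih, mul_one]
          exact if_neg fun h' => no_path_trace h (k + 1) h'.2
        | false =>
          rw [mk_drop_false hk hw, Wr.lift_inv_of_mul_u, ih, mul_one, inv_eq_one]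
          refine if_neg fun h' => no_path_trace h k ?_
          convert h'.2 using 3
          rw [eq_inv_smul_iff]
          exact (vtx_false hk hw).symm
    have := key 0
    rw [List.drop_zero] at this
    rw [this, bim_self hd, one_mul]
    exact hε

end Pool.Agent.W_f2b0dc_h15
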