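import Pool.Agent.W_f2b0dc_h15.Lift
import Pool.Agent.W_f2b0dc_h15.Tele

/-!
# The core lemma
-/

namespace Pool.Agent.W_f2b0dc_h15

open Pool.Agent.W_MP_f2b0dc_al

universe u v w

section Level

variable {G : Type u} [Group G] {ι : Type}

/-- the words -/
def wds (a : FreeGroup G) (g : ι → FreeGroup G) [DecidableEq G] : Option ι → List (G × Bool)
  | none => a.toWord
  | some i => (g i).toWord

variable (a : FreeGroup G) (g : ι → FreeGroup G)

/-- the subgroup generated by the conjugates -/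
def HH {Q : Type} [Group Q] (φ : FreeGroup G →* Q) (q : ι → Q) : Subgroup Q :=
  Subgroup.closure (Set.range fun i => (q i)⁻¹ * φ (g i) * q i)

/-- the base point -/
def bb {Q : Type} [Group Q] (φ : FreeGroup G →* Q) (q : ι → Q) : Q ⧸ HH g φ q :=
  ((1 : Q) : Q ⧸ HH g φ q)

/-- the family `q`, extended by `1` -/
def qq {Q : Type} [Group Q] (q : ι → Q) : Option ι → Q
  | none => 1
  | some i => q i

/-- the points -/
def xx {Q : Type} [Group Q] (φ : FreeGroup G →* Q) (q : ι → Q) : Option ι → Q ⧸ HH g φ q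
  | none => bb g φ q
  | some i => ((q i : Q) : Q ⧸ HH g φ q)

/-- a level: a finite quotient with a liftable solution -/
structure Lvl where
  Q : Type
  grp : Group Q
  fin : Finite Q
  φ : FreeGroup G →* Q
  q : ι → Q
  lift : Liftable a g φ q

variable {a g}

attribute [instance] Lvl.grp Lvl.fin

variable [DecidableEq G]

/-- the pattern of a level -/
def Lvl.pat (L : Lvl a g) : Set ((Σ j : Option ι, Fin ((wds a g j).length + 1)) ×
    (Σ j : Option ι, Fin ((wds a g j).length + 1))) :=
  {p | vtx L.φ (wds a g) (xx g L.φ L.q) p.1.1 p.1.2 = vtx L.φ (wds a g) (xx g L.φ L.q) p.2.1 p.2.2}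

lemma Lvl.pat_iff (L : Lvl a g) (j : Option ι) (k : ℕ) (hk : k ≤ (wds a g j).length)
    (j' : Option ι) (k' : ℕ) (hk' : k' ≤ (wds a g j').length) :
    ((⟨j, ⟨k, Nat.lt_succ_of_le hk⟩⟩, ⟨j', ⟨k', Nat.lt_succ_of_le hk'⟩⟩) :
      (Σ j : Option ι, Fin ((wds a g j).length + 1)) ×
    (Σ j : Option ι, Fin ((wds a g j).length + 1))) ∈ L.pat ↔
    vtx L.φ (wds a g) (xx g L.φ L.q) j k = vtx L.φ (wds a g) (xx g L.φ L.q) j' k' := Iff.rfl

/-- equality of vertices in terms of elements of `Q` -/
lemma vtx_eq {Q : Type} [Group Q] (φ : FreeGroup G →* Q) (q : ι → Q) (j : Option ι) (k : ℕ) :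
    vtx φ (wds a g) (xx g φ q) j k =
      ((φ (FreeGroup.mk ((wds a g j).drop k)) * qq q j : Q) :
        Q ⧸ HH g φ q) := by
  cases j <;> rfl

lemma pat_mono {L L' : Lvl a g} (ρ : L'.Q →* L.Q) (hρ : ρ.comp L'.φ = L.φ)
    (hq : (fun i => ρ (L'.q i)) = L.q) : L'.pat ⊆ L.pat := by
  have hH : (HH g L'.φ L'.q) ≤ (HH g L.φ L.q).comap ρ := by
    rw [HH, Subgroup.closure_le]
    rintro _ ⟨i, rfl⟩
    simp only [Subgroup.coe_comap, Set.mem_preimage, map_mul, map_inv, SetLike.mem_coe]
    apply Subgroup.subset_closure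
    refine ⟨i, ?_⟩
    simp only
    rw [← hρ, ← hq]
    rfl
  rintro ⟨⟨j, k⟩, ⟨j', k'⟩⟩ h
  simp only [Lvl.pat, Set.mem_setOf_eq] at h ⊢
  rw [vtx_eq, vtx_eq, QuotientGroup.eq] at h ⊢
  have := hH h
  simp only [Subgroup.mem_comap, map_mul, map_inv] at this
  have e1 : ∀ f, ρ (L'.φ f) = L.φ f := fun f => by rw [← hρ]; rfl
  have e2 : ∀ i, ρ (L'.q i) = L.q i := fun i => by rw [← hq]
  rw [e1, e1] at this
  have e3 : ∀ j, ρ (qq L'.q j) = qq L.q j := by
    intro j
    cases j with
    | none => exact map_one ρ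
    | some i => exact e2 i
  rw [e3, e3] at this
  exact this

end Level

/-- Core lemma: a bad family gives a finitely generated subgroup `P` of `G` which contains `ev a`
and which is boundedly generated by small elements in every approximation. -/
theorem core {G : Type u} [Group G] {ι : Type} [Finite ι] (a : FreeGroup G) (g : ι → FreeGroup G)
    (hg : ∀ i, ev (g i) = 1) (hb : Bad a g) :
    ∃ P : Subgroup G, P.FG ∧ ev a ∈ P ∧ ∀ F₁ : Finset G, (F₁ : Set G) ⊆ P →
      ∃ F₀ : Finset G, (F₀ : Set G) ⊆ P ∧ ∃ C : ℝ, 0 < C ∧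
        ∀ (E : Type) (_ : Group E) (_ : Finite E) (d : E → E → ℝ) (θ : G → E) (ε : ℝ),
          IsBiInvMetric d → 0 ≤ ε → Apx d θ F₀ ε →
          ∃ u : ι → E, (∀ i, d (u i) 1 ≤ C * ε) ∧
            ∀ h ∈ F₁, ∃ v ∈ Subgroup.closure (Set.range u), d v (θ h) ≤ C * ε := by
  classical
  -- a level with minimal pattern
  have hne : Nonempty (Lvl a g) := by
    obtain ⟨q, hq⟩ := hb.exists_liftable (1 : FreeGroup G →* Unit)
    exact ⟨⟨Unit, inferInstance, inferInstance, 1, q, hq⟩⟩
  obtain ⟨L, -, hL⟩ := WellFounded.has_min (measure fun L : Lvl a g => L.pat.ncard).wf Set.univ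
    ⟨hne.some, trivial⟩
  have hL' : ∀ L' : Lvl a g, L.pat.ncard ≤ L'.pat.ncard := fun L' => not_lt.1 (hL L' trivial)
  let X := L.Q ⧸ HH g L.φ L.q
  let b : X := bb g L.φ L.q
  let x : Option ι → X := xx g L.φ L.q
  let wd := wds a g
  haveI : Finite X := inferInstanceAs (Finite (L.Q ⧸ HH g L.φ L.q))
  have hwa : FreeGroup.mk (wd none) = a := FreeGroup.mk_toWord
  have hwg : ∀ i, FreeGroup.mk (wd (some i)) = g i := fun i => FreeGroup.mk_toWord
  have hxb : x none = b := rfl
  obtain ⟨s, hs1, hs⟩ := exists_sec (φ := L.φ) (b := b) (wd := wd) (x := x)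
  -- closed words
  have hca : L.φ a • b = b := by
    have h1 : L.φ a ∈ HH g L.φ L.q := L.lift.mem_sol
    change ((L.φ a * 1 : L.Q) : L.Q ⧸ HH g L.φ L.q) = ((1 : L.Q) : L.Q ⧸ HH g L.φ L.q)
    rw [QuotientGroup.eq]
    simpa using h1
  have hcg : ∀ i, L.φ (g i) • x (some i) = x (some i) := by
    intro i
    change ((L.φ (g i) * L.q i : L.Q) : L.Q ⧸ HH g L.φ L.q) = ((L.q i : L.Q) : L.Q ⧸ HH g L.φ L.q)
    rw [QuotientGroup.eq]
    have : (L.q i)⁻¹ * L.φ (g i) * L.q i ∈ HH g L.φ L.q := Subgroup.subset_closure ⟨i, rfl⟩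
    have h2 := inv_mem this
    convert h2 using 1
    group
  refine ⟨(loops L.φ b wd x).map ev, ?_, ?_, ?_⟩
  · obtain ⟨S, hS⟩ := loops_fg hs1 hs
    refine ⟨S.image ev, ?_⟩
    rw [Finset.coe_image, ← MonoidHom.map_closure, hS]
  · refine ⟨a, ?_, rfl⟩
    have := path_trace (φ := L.φ) (b := b) (wd := wd) (x := x) (j := none) (s0 := 1)
      (by rw [hxb]; exact Path.one) 0
    rw [List.drop_zero, vtx_zero, hwa, mul_one, hxb, hca] at this
    exact this
  · intro F₁ hF₁
    -- lifts of the elements of `F₁`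
    have hlift : ∀ h ∈ F₁, ∃ f, Path L.φ b wd x f b ∧ ev f = h := by
      intro h hh
      obtain ⟨f, hf, e⟩ := hF₁ hh
      exact ⟨f, hf, e⟩
    choose! lf hlf1 hlf2 using hlift
    -- data for telescoping
    have hT : ∀ h : G, ∃ F₀ : Finset G, (F₀ : Set G) ⊆ (loops L.φ b wd x).map ev ∧ ∃ C : ℝ, 0 < C ∧
        (h ∈ F₁ → ∀ (E : Type) (_ : Group E) (d : E → E → ℝ) (θ : G → E) (ε : ℝ),
          IsBiInvMetric d → 0 ≤ ε → Apx d θ F₀ ε →
          d ((Wr.lift L.φ (coc L.φ b wd x s θ) (lf h)).u b) (θ h) ≤ C * ε) := by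
      intro h
      by_cases hh : h ∈ F₁
      · obtain ⟨F₀, hF₀, C, hC, H⟩ := tele hs1 hs (hlf1 h hh)
        refine ⟨F₀, hF₀, C, hC, fun _ E _ d θ ε hd hε hA => ?_⟩
        have := H E _ d θ ε hd hε hA
        rw [hs1, inv_one, one_mul, hlf2 h hh] at this
        exact this
      · exact ⟨∅, by simp, 1, one_pos, fun h' => absurd h' hh⟩
    choose FT hFT CT hCT HT using hT
    have hV := fun i : ι => value_small (φ := L.φ) (b := b) (wd := wd) (x := x) hs1 hs (some i)
      (by rw [hwg]; exact hcg i) (by rw [hwg]; exact hg i)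
    choose FV hFV CV hCV HV using hV
    haveI := Fintype.ofFinite ι
    refine ⟨F₁.biUnion FT ∪ Finset.univ.biUnion FV, ?_, (∑ h ∈ F₁, CT h) + (∑ i, CV i) + 1, ?_, ?_⟩
    · intro z hz
      simp only [Finset.coe_union, Finset.coe_biUnion, Set.mem_union, Set.mem_iUnion] at hz
      rcases hz with ⟨h, _, hz⟩ | ⟨i, _, hz⟩
      · exact hFT h hz
      · exact hFV i hz
    · have h1 : 0 ≤ ∑ h ∈ F₁, CT h := Finset.sum_nonneg fun h _ => (hCT h).le
      have h2 : 0 ≤ ∑ i, CV i := Finset.sum_nonneg fun i _ => (hCV i).le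
      linarith
    · intro E _ _ d θ ε hd hε hA
      have hC1 : ∀ h ∈ F₁, CT h ≤ (∑ h ∈ F₁, CT h) + (∑ i, CV i) + 1 := by
        intro h hh
        have h1 := Finset.single_le_sum (f := CT) (fun h _ => (hCT h).le) hh
        have h2 : 0 ≤ ∑ i, CV i := Finset.sum_nonneg fun i _ => (hCV i).le
        linarith
      have hC2 : ∀ i, CV i ≤ (∑ h ∈ F₁, CT h) + (∑ i, CV i) + 1 := by
        intro i
        have h1 : 0 ≤ ∑ h ∈ F₁, CT h := Finset.sum_nonneg fun h _ => (hCT h).le
        have h2 := Finset.single_le_sum (f := CV) (fun h _ => (hCV h).le) (Finset.mem_univ i)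
        linarith
      have hA1 : ∀ h ∈ F₁, Apx d θ (FT h) ε := by
        intro h hh g hg h' hh' hgh
        have hsub : FT h ⊆ F₁.biUnion FT ∪ Finset.univ.biUnion FV :=
          (Finset.subset_biUnion_of_mem FT hh).trans Finset.subset_union_left
        exact hA g (hsub hg) h' (hsub hh') (hsub hgh)
      have hA2 : ∀ i, Apx d θ (FV i) ε := by
        intro i g hg h' hh' hgh
        have hsub : FV i ⊆ F₁.biUnion FT ∪ Finset.univ.biUnion FV :=
          (Finset.subset_biUnion_of_mem FV (Finset.mem_univ i)).trans Finset.subset_union_right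
        exact hA g (hsub hg) h' (hsub hh') (hsub hgh)
      -- the next level
      let c := coc L.φ b wd x s θ
      let φ' : FreeGroup G →* Wr E X L.Q := Wr.lift L.φ c
      obtain ⟨q', hq', hρ⟩ := L.lift.lift (Wr.proj_comp_lift L.φ c)
      let L' : Lvl a g := ⟨Wr E X L.Q, inferInstance, inferInstance, φ', q', hq'⟩
      have hsub : L'.pat ⊆ L.pat := pat_mono (L := L) (L' := L') Wr.proj
        (Wr.proj_comp_lift L.φ c) hρ
      have hpat : L'.pat = L.pat := by
        haveI : Finite (Option ι) := inferInstance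
        exact Set.eq_of_subset_of_ncard_le hsub (hL' L') (Set.toFinite _)
      have hr : ∀ i, (q' i).r = L.q i := fun i => congrFun hρ i
      -- the closure at the next level
      have hS : ∀ y ∈ Set.range (fun i => (q' i)⁻¹ * φ' (g i) * q' i), y.r • b = b := by
        rintro _ ⟨i, rfl⟩
        have e1 : ((q' i)⁻¹ * φ' (g i) * q' i).r = (L.q i)⁻¹ * L.φ (g i) * L.q i := by
          simp only [Wr.mul_r, Wr.inv_r, hr, φ', Wr.lift_r]
        rw [e1, mul_smul, mul_smul]
        have e2 : L.q i • b = x (some i) := by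
          change ((L.q i * 1 : L.Q) : L.Q ⧸ HH g L.φ L.q) = _
          rw [mul_one]
          rfl
        rw [e2, hcg, ← e2, inv_smul_smul]
      refine ⟨fun i => ((q' i)⁻¹ * φ' (g i) * q' i).u b, ?_, ?_⟩
      · intro i
        have e2 : (q' i).r • b = x (some i) := by
          rw [hr]
          change ((L.q i * 1 : L.Q) : L.Q ⧸ HH g L.φ L.q) = _
          rw [mul_one]
          rfl
        have e3 : (φ' (g i)).r • ((q' i).r • b) = (q' i).r • b := by
          rw [e2]
          simp only [φ', Wr.lift_r]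
          exact hcg i
        simp only
        rw [Wr.conj_u e3, bim_conj hd, e2]
        have := HV i E _ d θ ε hd hε (hA2 i)
        rw [hwg] at this
        exact this.trans (mul_le_mul_of_nonneg_right (hC2 i) hε)
      · intro h hh
        refine ⟨(φ' (lf h)).u b, ?_, ?_⟩
        · have hmem : φ' (lf h) ∈ HH g φ' q' := by
            obtain ⟨j, k, hk, hy, hf⟩ := path_transport (φ' := φ') (b' := bb g φ' q')
              (x' := xx g φ' q') none hxb rfl (by
                intro j k j' k' hk hk' e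
                have e' := (L.pat_iff j k hk j' k' hk').2 e
                rw [← hpat] at e'
                exact (L'.pat_iff j k hk j' k' hk').1 e') (hlf1 h hh)
            have e1 : vtx φ' wd (xx g φ' q') j k = vtx φ' wd (xx g φ' q') none (wd none).length := by
              have e' : vtx L.φ wd x j k = vtx L.φ wd x none (wd none).length := by
                rw [← hy, vtx_len _ le_rfl, hxb]
              have e'' := (L.pat_iff j k hk none _ le_rfl).2 e'
              rw [← hpat] at e''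
              exact (L'.pat_iff j k hk none _ le_rfl).1 e''
            rw [e1, vtx_len _ le_rfl] at hf
            have hf' : ((φ' (lf h) * 1 : Wr E X L.Q) : (Wr E X L.Q) ⧸ HH g φ' q') =
              ((1 : Wr E X L.Q) : (Wr E X L.Q) ⧸ HH g φ' q') := hf
            rw [QuotientGroup.eq] at hf'
            have := inv_mem hf'
            rw [mul_one, mul_one, inv_inv] at this
            exact this
          have := (Wr.u_mem_closure hS hmem).2
          rwa [← Set.range_comp] at this
        · have := HT h hh E _ d θ ε hd hε (hA1 h hh)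
          exact this.trans (mul_le_mul_of_nonneg_right (hC1 h hh) hε)

end Pool.Agent.W_f2b0dc_h15
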