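import Pool.Agent.W_f2b0dc_h15.NS

/-!
# The final theorems
-/

namespace Pool.Agent.W_f2b0dc_h15

open Pool.Agent.W_MP_f2b0dc_al

universe u v w x

/-- A group is span-sofic if every nontrivial finitely generated subgroup has a nontrivial
homomorphism to some span-sofic group. -/
theorem spanSofic_of_local' {G : Type u} [Group G]
    (h : ∀ P : Subgroup G, P.FG → P ≠ ⊥ →
      ∃ (K : Type v) (_ : Group K) (f : P →* K), SpanSofic K ∧ f ≠ 1) : SpanSofic G := by
  by_contra hn
  obtain ⟨ι, hι, x, P, hx, hFG, hxP, hP⟩ := exists_core_of_not_spanSofic hn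
  have hne : P ≠ ⊥ := fun h' => hx (by rw [h'] at hxP; exact Subgroup.mem_bot.1 hxP)
  obtain ⟨K, _, f, hK, hf⟩ := h P hFG hne
  exact hf (MonoidHom.ext fun y => core_trivial P hP hK f y)

/-- The condition on the vertex groups. -/
def LocallyMaps (Γ : Type u) [Group Γ] : Prop :=
  ∀ P : Subgroup Γ, P.FG → P ≠ ⊥ → ∃ (K : Type v) (_ : Group K) (f : P →* K), f ≠ 1 ∧
    (SpanSofic K ∨ ∃ (k : Type w) (_ : Field k), LinearSofic k K)

theorem LocallyMaps.spanSofic {Γ : Type u} [Group Γ] (h : LocallyMaps.{u, v, w} Γ) :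
    SpanSofic Γ := by
  refine spanSofic_of_local'.{u, v} fun P hP hne => ?_
  obtain ⟨K, _, f, hf, hK⟩ := h P hP hne
  refine ⟨K, _, f, ?_, hf⟩
  rcases hK with hK | ⟨k, _, hk⟩
  · exact hK
  · exact spanSofic_of_linearSofic k K hk

/-- graph products -/
theorem spanSofic_graphProduct_of_localMaps (V : Type x) (X : SimpleGraph V) (Γ : V → Type u)
    [∀ i, Group (Γ i)] (h : ∀ i, LocallyMaps.{u, v, w} (Γ i)) : SpanSofic (GraphProduct X Γ) :=
  spanSofic_graphProduct X Γ fun i => (h i).spanSofic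

/-- graph products, vertex groups of both kinds -/
theorem spanSofic_graphProduct_mixed (V : Type x) (X : SimpleGraph V) (Γ : V → Type u)
    [∀ i, Group (Γ i)]
    (h : ∀ i, LocallyMaps.{u, v, w} (Γ i) ∨ (NikolovSegal ∧ WeaklySofic (Γ i))) :
    SpanSofic (GraphProduct X Γ) := by
  refine spanSofic_graphProduct X Γ fun i => ?_
  rcases h i with h | ⟨hNS, h⟩
  · exact h.spanSofic
  · exact spanSofic_of_weaklySofic hNS h

end Pool.Agent.W_f2b0dc_h15
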