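import Pool.Agent.W_f2b0dc_h15.Base

/-!
# Liftable solutions
-/

namespace Pool.Agent.W_f2b0dc_h15

universe u v w

variable {F : Type u} [Group F] {ι : Type} {a : F} {g : ι → F}

lemma sol_map {Q Q' : Type} [Group Q] [Group Q'] {φ : F →* Q} {φ' : F →* Q'} {ρ : Q' →* Q}
    (h : ρ.comp φ' = φ) {q' : ι → Q'} (hq : q' ∈ Sol a g φ') :
    (fun i => ρ (q' i)) ∈ Sol a g φ := by
  have h1 : φ' a ∈ Subgroup.closure (Set.range fun i => (q' i)⁻¹ * φ' (g i) * q' i) := hq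
  have h2 := Subgroup.mem_map_of_mem ρ h1
  rw [MonoidHom.map_closure, ← Set.range_comp] at h2
  have h3 : ρ (φ' a) = φ a := by rw [← h]; rfl
  have h4 : (ρ ∘ fun i => (q' i)⁻¹ * φ' (g i) * q' i)
      = fun i => (ρ (q' i))⁻¹ * φ (g i) * ρ (q' i) := by
    funext i
    simp [← h]
  rw [h3, h4] at h2
  exact h2

lemma Liftable.mem_sol {Q : Type} [Group Q] [Finite Q] {φ : F →* Q} {q : ι → Q}
    (h : Liftable a g φ q) : q ∈ Sol a g φ := by
  obtain ⟨q', hq', he⟩ := h Q inferInstance inferInstance φ (MonoidHom.id Q)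
    (MonoidHom.id_comp φ)
  have : q' = q := he
  rw [← this]
  exact hq'

/-- Proof: otherwise for each `q ∈ S` there is a bad `(Q'_q, φ'_q, ρ_q)` (no solution over `q`).
Take the subgroup of `Q × ∏_{q : ι → Q} Q'_q` of all elements whose components satisfy
`ρ_q (x_q) = x_0` for all `q` (with `Q'_q := Q`, `ρ_q = id` if `q ∉ S`), a finite group above `Q`;
it has a solution `q''` with image `q` in `Q` lying in `S`; its `q`-component is a solution
over `q` in `Q'_q`: contradiction. -/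
lemma exists_liftable [Finite ι] {Q : Type} [Group Q] [Finite Q] {φ : F →* Q} (S : Set (ι → Q))
    (h : ∀ (Q' : Type) (_ : Group Q') (_ : Finite Q') (φ' : F →* Q') (ρ : Q' →* Q),
      ρ.comp φ' = φ → ∃ q' ∈ Sol a g φ', (fun i => ρ (q' i)) ∈ S) :
    ∃ q ∈ S, Liftable a g φ q := by
  by_contra hcon
  have hbad : ∀ q : S, ∃ (Q' : Type) (_ : Group Q') (_ : Finite Q') (φ' : F →* Q')
      (ρ : Q' →* Q), ρ.comp φ' = φ ∧
        ∀ q' ∈ Sol a g φ', (fun i => ρ (q' i)) ≠ (q : ι → Q) := by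
    intro q
    have h1 : ¬ Liftable a g φ (q : ι → Q) := fun h2 => hcon ⟨q, q.2, h2⟩
    unfold Liftable at h1
    push Not at h1
    obtain ⟨Q', i1, i2, φ', ρ, h3, h4⟩ := h1
    exact ⟨Q', i1, i2, φ', ρ, h3, h4⟩
  choose T instG instF φ' ρ hρ hno using hbad
  let E : Subgroup (Q × ∀ q : S, T q) :=
    { carrier := {x | ∀ q, ρ q (x.2 q) = x.1}
      mul_mem' := by
        intro x y hx hy q
        have h1 := hx q
        have h2 := hy q
        simp [h1, h2]
      one_mem' := by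
        intro q
        simp
      inv_mem' := by
        intro x hx q
        have h1 := hx q
        simp [h1] }
  let φ₀ : F →* (Q × ∀ q : S, T q) := φ.prod (MonoidHom.pi φ')
  have hφ₀ : ∀ x, φ₀ x ∈ E := by
    intro x q
    have h1 : (ρ q) ((φ' q) x) = φ x := by
      have := congrArg (fun f : F →* Q => f x) (hρ q)
      exact this
    exact h1
  let φ₁ : F →* E := φ₀.codRestrict E hφ₀
  let ρ₁ : E →* Q := (MonoidHom.fst Q (∀ q : S, T q)).comp E.subtype
  have hρ₁ : ρ₁.comp φ₁ = φ := by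
    ext x
    rfl
  have hfin : Finite E := inferInstance
  obtain ⟨q₁, hq₁, hS⟩ := h E inferInstance hfin φ₁ ρ₁ hρ₁
  let q₀ : S := ⟨_, hS⟩
  let π : E →* T q₀ :=
    ((Pi.evalMonoidHom T q₀).comp (MonoidHom.snd Q (∀ q : S, T q))).comp E.subtype
  have hπ : π.comp φ₁ = φ' q₀ := by
    ext x
    rfl
  have h1 := sol_map hπ hq₁
  refine hno q₀ _ h1 ?_
  funext i
  exact (q₁ i).2 q₀

/-- Proof: `exists_liftable` for `Q'` and `S = {q' | ρ ∘ q' = q}`. -/
lemma Liftable.lift [Finite ι] {Q Q' : Type} [Group Q] [Finite Q] [Group Q'] [Finite Q']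
    {φ : F →* Q} {φ' : F →* Q'} {ρ : Q' →* Q} (hρ : ρ.comp φ' = φ) {q : ι → Q}
    (h : Liftable a g φ q) : ∃ q' : ι → Q', Liftable a g φ' q' ∧ (fun i => ρ (q' i)) = q := by
  obtain ⟨q', hq', hl⟩ := exists_liftable (a := a) (g := g) (φ := φ')
    {q' : ι → Q' | (fun i => ρ (q' i)) = q} (by
      intro Q₂ _ _ φ₂ ρ₂ h₂
      obtain ⟨q₂, hq₂, he⟩ := h Q₂ inferInstance inferInstance φ₂ (ρ.comp ρ₂) (by
        rw [MonoidHom.comp_assoc, h₂, hρ])
      exact ⟨q₂, hq₂, he⟩)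
  exact ⟨q', hl, hq'⟩

/-- Proof: `exists_liftable` with `S = univ`, since `a, g` is bad. -/
lemma Bad.exists_liftable [Finite ι] (hb : Bad a g) {Q : Type} [Group Q] [Finite Q]
    (φ : F →* Q) : ∃ q : ι → Q, Liftable a g φ q := by
  obtain ⟨q, _, hl⟩ := _root_.Pool.Agent.W_f2b0dc_h15.exists_liftable (a := a) (g := g) (φ := φ)
    (Set.univ : Set (ι → Q)) (by
      intro Q₂ _ _ φ₂ ρ₂ h₂
      obtain ⟨q₂, hq₂⟩ := hb Q₂ inferInstance inferInstance φ₂
      exact ⟨q₂, hq₂, Set.mem_univ _⟩)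
  exact ⟨q, hl⟩

end Pool.Agent.W_f2b0dc_h15
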