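import Pool.Agent.W_f2b0dc_h15.Red
import Pool.Agent.W_f2b0dc_h15.Core

/-!
# The local criterion for span-sofic groups and the closure under extensions
-/

namespace Pool.Agent.W_f2b0dc_h15

open Pool.Agent.W_MP_f2b0dc_al

universe u v w

/-- A group which is not span-sofic contains a nontrivial finitely generated subgroup which is
boundedly generated by small elements in every approximation. (`spanSofic_of_not_bad`
and `core`.) -/
theorem exists_core_of_not_spanSofic {G : Type u} [Group G] (h : ¬ SpanSofic G) :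
    ∃ (ι : Type) (_ : Finite ι) (x : G) (P : Subgroup G), x ≠ 1 ∧ P.FG ∧ x ∈ P ∧
      ∀ F₁ : Finset G, (F₁ : Set G) ⊆ P →
      ∃ F₀ : Finset G, (F₀ : Set G) ⊆ P ∧ ∃ C : ℝ, 0 < C ∧
        ∀ (E : Type) (_ : Group E) (_ : Finite E) (d : E → E → ℝ) (θ : G → E) (ε : ℝ),
          IsBiInvMetric d → 0 ≤ ε → Apx d θ F₀ ε →
          ∃ u : ι → E, (∀ i, d (u i) 1 ≤ C * ε) ∧
            ∀ h ∈ F₁, ∃ v ∈ Subgroup.closure (Set.range u), d v (θ h) ≤ C * ε := by
  classical
  by_contra hcon
  refine h (spanSofic_of_not_bad fun ι hι a g hg ha hb => hcon ?_)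
  obtain ⟨P, hP1, hP2, hP3⟩ := core a g hg hb
  exact ⟨ι, hι, ev a, P, ha, hP1, hP2, hP3⟩

/-- If `K` is span-sofic and `f : P → K` is a homomorphism from a subgroup `P` of `G` with the
core property, then `f` is trivial.
Proof. Let `x ∈ P` with `f x ≠ 1` and `F₁ = {x}`; take `F₀, C` from the core property; take the
approximation `θ₀ : K → E` of `K` with a span metric for the finite set of the `f y`, `y ∈ F₀` or
`y = x`, and `ε > 0` with `C * ε * (|ι| + 1) < 1`, and `θ y = θ₀ (f y)` for `y ∈ P`, `θ y = 1`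
else. Then `1 ≤ d (θ x) 1 ≤ d v (θ x) + d v 1 ≤ C * ε + |ι| * C * ε < 1`, by the span property for
the finset `{u i}`. -/
theorem core_trivial {G : Type u} [Group G] {ι : Type} [Finite ι] (P : Subgroup G)
    (hP : ∀ F₁ : Finset G, (F₁ : Set G) ⊆ P →
      ∃ F₀ : Finset G, (F₀ : Set G) ⊆ P ∧ ∃ C : ℝ, 0 < C ∧
        ∀ (E : Type) (_ : Group E) (_ : Finite E) (d : E → E → ℝ) (θ : G → E) (ε : ℝ),
          IsBiInvMetric d → 0 ≤ ε → Apx d θ F₀ ε →
          ∃ u : ι → E, (∀ i, d (u i) 1 ≤ C * ε) ∧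
            ∀ h ∈ F₁, ∃ v ∈ Subgroup.closure (Set.range u), d v (θ h) ≤ C * ε)
    {K : Type v} [Group K] (hK : SpanSofic K) (f : P →* K) (x : P) : f x = 1 := by
  classical
  by_contra hx
  have := Fintype.ofFinite ι
  obtain ⟨F₀, hF₀, C, hC, hcore⟩ := hP {x.1} (by
    intro y hy
    rw [Finset.coe_singleton, Set.mem_singleton_iff] at hy
    rw [hy]
    exact x.2)
  set N : ℝ := (Fintype.card ι : ℝ) with hN
  have hN0 : 0 ≤ N := Nat.cast_nonneg _
  have hε : 0 < 1 / (2 * C * (N + 1)) := by positivity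
  set ε : ℝ := 1 / (2 * C * (N + 1)) with hεd
  have hCε : C * ε * (N + 1) = 1 / 2 := by
    rw [hεd]
    field_simp
  obtain ⟨H, hH, hHf, d, φ, hd, hspan, hmul, hsep⟩ := hK
    ((F₀.attach.image fun y => f ⟨y.1, hF₀ y.2⟩) ∪ {f x}) ε hε
  have hmem : ∀ y (hy : y ∈ F₀), f ⟨y, hF₀ hy⟩ ∈
      (F₀.attach.image fun y => f ⟨y.1, hF₀ y.2⟩) ∪ {f x} := fun y hy =>
    Finset.mem_union_left _ (Finset.mem_image.2 ⟨⟨y, hy⟩, Finset.mem_attach _ _, rfl⟩)
  let θ : G → H := fun y => if h : y ∈ P then φ (f ⟨y, h⟩) else 1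
  have hθ : ∀ y (h : y ∈ P), θ y = φ (f ⟨y, h⟩) := fun y h => dif_pos h
  obtain ⟨u, hu, hv⟩ := hcore H hH hHf d θ ε hd hε.le (by
    intro g hg h hh hgh
    rw [hθ _ (hF₀ hgh), hθ _ (hF₀ hg), hθ _ (hF₀ hh)]
    have h1 : f ⟨g * h, hF₀ hgh⟩ = f ⟨g, hF₀ hg⟩ * f ⟨h, hF₀ hh⟩ := by
      rw [← map_mul]
      rfl
    have h2 := hmul _ (hmem g hg) _ (hmem h hh) (h1 ▸ hmem _ hgh)
    rw [h1]
    exact h2)
  obtain ⟨v, hv1, hv2⟩ := hv x.1 (Finset.mem_singleton_self _)
  have h1 : d v 1 ≤ N * (C * ε) := by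
    have h2 : ((Finset.univ.image u : Finset H) : Set H) = Set.range u := by
      simp
    refine (hspan (Finset.univ.image u) v (by rw [h2]; exact hv1)).trans ?_
    refine (Finset.sum_le_card_nsmul _ _ (C * ε) ?_).trans ?_
    · intro s hs
      obtain ⟨i, -, rfl⟩ := Finset.mem_image.1 hs
      exact hu i
    · rw [nsmul_eq_mul]
      refine mul_le_mul_of_nonneg_right ?_ (by positivity)
      rw [hN]
      exact_mod_cast Finset.card_image_le
  have h3 : 1 ≤ d (θ x.1) 1 := by
    rw [hθ _ x.2]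
    exact hsep _ (Finset.mem_union_right _ (Finset.mem_singleton_self _)) hx
  have h4 := hd.triangle (θ x.1) v 1
  rw [hd.symm (θ x.1) v] at h4
  nlinarith

/-- A finite group is span-sofic (discrete metric). -/
theorem spanSofic_of_finite {E : Type u} [Group E] [Finite E] : SpanSofic E := by
  classical
  intro F ε hε
  let e : E ≃* Shrink.{0} E := (Shrink.mulEquiv.{0, u} (α := E)).symm
  have he : ∀ g : E, e g = 1 → g = 1 := fun g h => (MulEquiv.map_eq_one_iff e).1 h
  refine ⟨Shrink.{0} E, inferInstance, inferInstance, fun a b => if a = b then (0 : ℝ) else 1,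
    fun g => e g, ⟨?_, ?_, ?_, ?_, ?_⟩, ?_, ?_, ?_⟩
  · intro a b
    by_cases h : a = b
    · simp [h]
    · simp [h]
  · intro a b
    simp only [eq_comm]
  · intro a b c
    by_cases h1 : a = b
    · subst h1
      simp
    · by_cases h2 : b = c
      · subst h2
        simp
      · simp only [if_neg h1, if_neg h2]
        split_ifs <;> norm_num
  · intro x a b
    simp only [mul_right_inj]
  · intro x a b
    simp only [mul_left_inj]
  · intro S x hx
    have hnn : ∀ s ∈ S, (0 : ℝ) ≤ if s = 1 then 0 else 1 := fun s _ => by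
      split_ifs <;> norm_num
    by_cases h1 : x = 1
    · simp only [if_pos h1]
      exact Finset.sum_nonneg hnn
    · simp only [if_neg h1]
      have h2 : ∃ s ∈ S, s ≠ 1 := by
        by_contra hcon
        push Not at hcon
        apply h1
        have h3 : Subgroup.closure (S : Set (Shrink.{0} E)) = ⊥ := by
          rw [Subgroup.closure_eq_bot_iff]
          intro s hs
          exact hcon s hs
        rw [h3] at hx
        exact Subgroup.mem_bot.1 hx
      obtain ⟨s, hs, hs1⟩ := h2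
      refine le_trans ?_ (Finset.single_le_sum hnn hs)
      rw [if_neg hs1]
  · intro g _ h _ _
    simp only [map_mul, if_true]
    exact hε.le
  · intro g _ hg
    simp only [if_neg fun h => hg (he g h), le_refl]

/-- A subgroup with the core property has no nontrivial finite quotient
(`core_trivial` and `spanSofic_of_finite`). -/
theorem core_noFiniteQuotient {G : Type u} [Group G] {ι : Type} [Finite ι] (P : Subgroup G)
    (hP : ∀ F₁ : Finset G, (F₁ : Set G) ⊆ P →
      ∃ F₀ : Finset G, (F₀ : Set G) ⊆ P ∧ ∃ C : ℝ, 0 < C ∧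
        ∀ (E : Type) (_ : Group E) (_ : Finite E) (d : E → E → ℝ) (θ : G → E) (ε : ℝ),
          IsBiInvMetric d → 0 ≤ ε → Apx d θ F₀ ε →
          ∃ u : ι → E, (∀ i, d (u i) 1 ≤ C * ε) ∧
            ∀ h ∈ F₁, ∃ v ∈ Subgroup.closure (Set.range u), d v (θ h) ≤ C * ε) :
    NoFiniteQuotient P := by
  intro E _ _ f x
  exact core_trivial P hP spanSofic_of_finite f x

/-- **Local criterion.** A group is span-sofic if all its finitely generated subgroups without
nontrivial finite quotients are span-sofic. -/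
theorem spanSofic_of_local {G : Type u} [Group G]
    (h : ∀ P : Subgroup G, P.FG → NoFiniteQuotient P → SpanSofic P) : SpanSofic G := by
  by_contra hn
  obtain ⟨ι, hι, x, P, hx, hFG, hxP, hP⟩ := exists_core_of_not_spanSofic hn
  have h1 := h P hFG (core_noFiniteQuotient P hP)
  have h2 := core_trivial P hP h1 (MonoidHom.id P) ⟨x, hxP⟩
  exact hx (congrArg Subtype.val h2)

/-- **Extensions.** An extension of a span-sofic group by a span-sofic group is span-sofic. -/
theorem spanSofic_of_extension {G : Type u} [Group G] {K : Type v} [Group K] (f : G →* K)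
    (hker : SpanSofic f.ker) (hK : SpanSofic K) : SpanSofic G := by
  by_contra hn
  obtain ⟨ι, hι, x, P, hx, hFG, hxP, hP⟩ := exists_core_of_not_spanSofic hn
  have h1 : ∀ y : P, f y.1 = 1 := fun y => core_trivial P hP hK (f.comp P.subtype) y
  have h2 := core_trivial P hP hker
    (P.subtype.codRestrict f.ker fun y => (MonoidHom.mem_ker).2 (h1 y)) ⟨x, hxP⟩
  exact hx (congrArg Subtype.val h2)

end Pool.Agent.W_f2b0dc_h15
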