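import Pool.Agent.W_f2b0dc_h15.Base

/-!
# Finitely generated groups without finite quotients are perfect
-/

namespace Pool.Agent.W_f2b0dc_h15

universe u v w

/-- A finitely generated group without nontrivial finite quotients is perfect.
Proof. The abelianisation `A` is a finitely generated abelian group without nontrivial finite
quotients; if it is nontrivial, then by the structure theorem (`CommGroup.equiv_free_prod_...` or
`AddCommGroup.equiv_free_prod_directSum_zmod` for `Additive A`) or by a maximal subgroup
(quotient = simple `ℤ`-module) it has a nontrivial homomorphism to a finite cyclic group. -/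
theorem commutator_eq_top_of_noFiniteQuotient {P : Type u} [Group P] [Group.FG P]
    (h : NoFiniteQuotient P) : commutator P = ⊤ := by
  by_contra hne
  have hnt : Nontrivial (Abelianization P) := by
    obtain ⟨x, hx⟩ : ∃ x, x ∉ commutator P := by
      by_contra hcon
      push Not at hcon
      exact hne ((Subgroup.eq_top_iff' _).2 hcon)
    refine ⟨⟨Abelianization.of x, 1, fun hx' => hx ?_⟩⟩
    exact (QuotientGroup.eq_one_iff x).1 hx'
  have hfg : Group.FG (Abelianization P) :=
    Group.fg_of_surjective (f := (Abelianization.of : P →* Abelianization P))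
      (QuotientGroup.mk'_surjective _)
  have hfg2 : AddGroup.FG (Additive (Abelianization P)) := inferInstance
  have hfin : Module.Finite ℤ (Additive (Abelianization P)) :=
    Module.Finite.iff_addGroup_fg.2 hfg2
  have hnt2 : Nontrivial (Additive (Abelianization P)) := inferInstance
  obtain ⟨N, hN⟩ := IsCoatomic.exists_coatom (Submodule ℤ (Additive (Abelianization P)))
  have hsimp : IsSimpleModule ℤ (Additive (Abelianization P) ⧸ N) :=
    isSimpleModule_iff_isCoatom.2 hN
  obtain ⟨I, hI, ⟨e⟩⟩ := isSimpleModule_iff_quot_maximal.1 hsimp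
  have hIne : I ≠ ⊥ := Ring.ne_bot_of_isMaximal_of_not_isField hI Int.not_isField
  have hfinI : Finite (ℤ ⧸ I) := Ideal.finiteQuotientOfFreeOfNeBot I hIne
  let f : P →* Multiplicative (ℤ ⧸ I) :=
    { toFun := fun x => Multiplicative.ofAdd (e (N.mkQ (Additive.ofMul (Abelianization.of x))))
      map_one' := by simp
      map_mul' := fun x y => by simp }
  have hf : ∀ x, f x = 1 := h (Multiplicative (ℤ ⧸ I)) inferInstance inferInstance f
  have hall : ∀ z : ℤ ⧸ I, z = 0 := by
    intro z
    obtain ⟨y, hy⟩ := N.mkQ_surjective (e.symm z)
    obtain ⟨x, hx⟩ := QuotientGroup.mk'_surjective (commutator P) y.toMul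
    have h1 := hf x
    have h2 : e (N.mkQ (Additive.ofMul (Abelianization.of x))) = 0 := h1
    have h3 : Additive.ofMul (Abelianization.of x) = y := by
      rw [← ofMul_toMul y, ← hx]
      rfl
    rw [h3, hy, LinearEquiv.apply_symm_apply] at h2
    exact h2
  have hss : Subsingleton (ℤ ⧸ I) := ⟨fun a b => by rw [hall a, hall b]⟩
  exact hI.ne_top (Ideal.Quotient.subsingleton_iff.1 hss)

end Pool.Agent.W_f2b0dc_h15
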