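import Pool.Agent.W_f2b0dc_h15.Local
import Pool.Agent.W_f2b0dc_h15.Perf
import Pool.Agent.W_MP_f2b0dc_al.Free

/-!
# Consequence of the theorem of Nikolov and Segal
-/

namespace Pool.Agent.W_f2b0dc_h15

open Pool.Agent.W_MP_f2b0dc_al
open scoped commutatorElement

universe u v w

section metric

variable {E : Type} [Group E] {d : E → E → ℝ}

lemma ns_self (hd : IsBiInvMetric d) (a : E) : d a a = 0 := (hd.eq_zero a a).2 rfl

lemma ns_nonneg (hd : IsBiInvMetric d) (a b : E) : 0 ≤ d a b := by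
  have h1 := hd.triangle a b a
  rw [ns_self hd, hd.symm b a] at h1
  linarith

lemma ns_mul (hd : IsBiInvMetric d) (a b a' b' : E) : d (a * b) (a' * b') ≤ d a a' + d b b' := by
  have h1 := hd.triangle (a * b) (a' * b) (a' * b')
  rw [hd.right, hd.left] at h1
  exact h1

lemma ns_inv (hd : IsBiInvMetric d) (a b : E) : d a⁻¹ b⁻¹ = d a b := by
  rw [← hd.left a a⁻¹ b⁻¹, ← hd.right b (a * a⁻¹) (a * b⁻¹)]
  simp [hd.symm]

lemma ns_conj (hd : IsBiInvMetric d) (g a : E) : d (g * a * g⁻¹) 1 = d a 1 := by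
  have h1 := hd.right g⁻¹ (g * a) (g * 1)
  rw [hd.left] at h1
  simpa using h1

lemma ns_list (hd : IsBiInvMetric d) (c : ℝ) (l : List E) (hl : ∀ y ∈ l, d y 1 ≤ c) :
    d l.prod 1 ≤ l.length * c := by
  induction l with
  | nil => simp [ns_self hd]
  | cons a l ih =>
    rw [List.prod_cons, List.length_cons]
    have h1 := ns_mul hd a l.prod 1 1
    rw [mul_one] at h1
    have h2 := ih (fun y hy => hl y (List.mem_cons_of_mem _ hy))
    have h3 := hl a List.mem_cons_self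
    push_cast
    nlinarith

/-- the value at `1` -/
lemma ns_one {G : Type u} [Group G] {θ : G → E} {F₀ : Finset G} {ε : ℝ} (hd : IsBiInvMetric d)
    (ha : Apx d θ F₀ ε) (h1 : (1 : G) ∈ F₀) : d (θ 1) 1 ≤ ε := by
  have h2 := ha 1 h1 1 h1 (by simpa using h1)
  rw [mul_one] at h2
  have h3 := hd.left (θ 1)⁻¹ (θ 1) (θ 1 * θ 1)
  rw [inv_mul_cancel, inv_mul_cancel_left, hd.symm] at h3
  rw [h3]
  exact h2

lemma ns_theta_inv {G : Type u} [Group G] {θ : G → E} {F₀ : Finset G} {ε : ℝ}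
    (hd : IsBiInvMetric d)
    (ha : Apx d θ F₀ ε) (h1 : (1 : G) ∈ F₀) (b : G) (hb : b ∈ F₀) (hb' : b⁻¹ ∈ F₀) :
    d (θ b)⁻¹ (θ b⁻¹) ≤ 2 * ε := by
  have h2 := ha b hb b⁻¹ hb' (by simpa using h1)
  rw [mul_inv_cancel] at h2
  have h3 := ns_one hd ha h1
  have h4 := hd.left (θ b) (θ b)⁻¹ (θ b⁻¹)
  rw [mul_inv_cancel] at h4
  rw [← h4]
  have h5 := hd.triangle 1 (θ 1) (θ b * θ b⁻¹)
  rw [hd.symm 1 (θ 1)] at h5
  linarith

end metric

/-- elements which are approximated by elements of the commutator subgroup -/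
def NsGood {G : Type u} [Group G] (P : Subgroup G) (p : G) : Prop :=
  ∃ F₁ : Finset G, (F₁ : Set G) ⊆ P ∧ ∀ C : ℝ, 0 < C → ∃ F₂ : Finset G, ∃ C' : ℝ, 0 < C' ∧
    ∀ (E : Type) (_ : Group E) (_ : Finite E) (d : E → E → ℝ) (θ : G → E) (ε : ℝ),
      IsBiInvMetric d → 0 ≤ ε → Apx d θ F₂ ε → ∀ E₀ : Subgroup E,
        (∀ h ∈ F₁, ∃ v ∈ E₀, d v (θ h) ≤ C * ε) →
          ∃ y : E₀, y ∈ commutator E₀ ∧ d (y : E) (θ p) ≤ C' * ε

lemma Apx.ns_mono {G : Type u} [Group G] {E : Type} [Group E] {d : E → E → ℝ} {θ : G → E}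
    {F₀ F₁ : Finset G} {ε : ℝ} (h : Apx d θ F₁ ε) (hs : F₀ ⊆ F₁) : Apx d θ F₀ ε :=
  fun g hg k hk hgk => h g (hs hg) k (hs hk) (hs hgk)

lemma nsGood_one {G : Type u} [Group G] (P : Subgroup G) : NsGood P 1 := by
  classical
  refine ⟨∅, by simp, fun C hC => ⟨{1}, 1, one_pos, ?_⟩⟩
  intro E _ _ d θ ε hd hε ha E₀ _
  refine ⟨1, one_mem _, ?_⟩
  rw [Subgroup.coe_one, hd.symm, one_mul]
  exact ns_one hd ha (by simp)

lemma nsGood_mul {G : Type u} [Group G] (P : Subgroup G) {p q : G} (hp : NsGood P p)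
    (hq : NsGood P q) : NsGood P (p * q) := by
  classical
  obtain ⟨F₁, h1, h2⟩ := hp
  obtain ⟨F₁', h1', h2'⟩ := hq
  refine ⟨F₁ ∪ F₁', by simp [h1, h1'], fun C hC => ?_⟩
  obtain ⟨F₂, C₂, h3, h4⟩ := h2 C hC
  obtain ⟨F₂', C₂', h3', h4'⟩ := h2' C hC
  refine ⟨F₂ ∪ F₂' ∪ {p, q, p * q}, C₂ + C₂' + 1, by positivity, ?_⟩
  intro E _ _ d θ ε hd hε ha E₀ hv
  obtain ⟨y, hy, hy'⟩ := h4 E _ inferInstance d θ ε hd hε
    (ha.ns_mono (by intro z hz; simp [hz])) E₀ (fun h hh => hv h (by simp [hh]))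
  obtain ⟨z, hz, hz'⟩ := h4' E _ inferInstance d θ ε hd hε
    (ha.ns_mono (by intro z hz; simp [hz])) E₀ (fun h hh => hv h (by simp [hh]))
  refine ⟨y * z, mul_mem hy hz, ?_⟩
  rw [Subgroup.coe_mul]
  have h5 := ha p (by simp) q (by simp) (by simp)
  have h6 := hd.triangle (y * z) (θ p * θ q) (θ (p * q))
  have h7 := ns_mul hd y z (θ p) (θ q)
  rw [hd.symm (θ p * θ q)] at h6
  linarith

lemma nsGood_inv {G : Type u} [Group G] (P : Subgroup G) {p : G} (hp : NsGood P p) :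
    NsGood P p⁻¹ := by
  classical
  obtain ⟨F₁, h1, h2⟩ := hp
  refine ⟨F₁, h1, fun C hC => ?_⟩
  obtain ⟨F₂, C₂, h3, h4⟩ := h2 C hC
  refine ⟨F₂ ∪ {1, p, p⁻¹}, C₂ + 2, by positivity, ?_⟩
  intro E _ _ d θ ε hd hε ha E₀ hv
  obtain ⟨y, hy, hy'⟩ := h4 E _ inferInstance d θ ε hd hε
    (ha.ns_mono (by intro z hz; simp [hz])) E₀ hv
  refine ⟨y⁻¹, inv_mem hy, ?_⟩
  rw [Subgroup.coe_inv]
  have h5 := ns_theta_inv hd ha (by simp) p (by simp) (by simp)
  have h6 := hd.triangle (y : E)⁻¹ (θ p)⁻¹ (θ p⁻¹)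
  rw [ns_inv hd] at h6
  linarith

lemma nsGood_commutator {G : Type u} [Group G] (P : Subgroup G) {b c : G} (hb : b ∈ P)
    (hc : c ∈ P) : NsGood P ⁅b, c⁆ := by
  classical
  refine ⟨{b, c}, ?_, fun C hC => ?_⟩
  · intro z hz
    simp only [Finset.coe_insert, Finset.coe_singleton, Set.mem_insert_iff,
      Set.mem_singleton_iff] at hz
    rcases hz with rfl | rfl
    · exact hb
    · exact hc
  refine ⟨{1, b, c, b⁻¹, c⁻¹, b * c, b * c * b⁻¹, b * c * b⁻¹ * c⁻¹}, 4 * C + 7,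
    by positivity, ?_⟩
  intro E _ _ d θ ε hd hε ha E₀ hv
  obtain ⟨v, hv1, hv2⟩ := hv b (by simp)
  obtain ⟨w, hw1, hw2⟩ := hv c (by simp)
  refine ⟨⁅(⟨v, hv1⟩ : E₀), (⟨w, hw1⟩ : E₀)⁆, ?_, ?_⟩
  · exact Subgroup.commutator_mem_commutator (Subgroup.mem_top _) (Subgroup.mem_top _)
  have e1 : ((⁅(⟨v, hv1⟩ : E₀), (⟨w, hw1⟩ : E₀)⁆ : E₀) : E) = v * w * v⁻¹ * w⁻¹ := by
    simp [commutatorElement_def]
  rw [e1, commutatorElement_def]
  have h1 := ha b (by simp) c (by simp) (by simp)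
  have h2 := ha (b * c) (by simp) b⁻¹ (by simp) (by simp)
  have h3 := ha (b * c * b⁻¹) (by simp) c⁻¹ (by simp) (by simp)
  have h4 := ns_theta_inv hd ha (by simp) b (by simp) (by simp)
  have h5 := ns_theta_inv hd ha (by simp) c (by simp) (by simp)
  -- approximate factors
  have g1 : d v⁻¹ (θ b⁻¹) ≤ C * ε + 2 * ε := by
    have := hd.triangle v⁻¹ (θ b)⁻¹ (θ b⁻¹)
    rw [ns_inv hd] at this
    linarith
  have g2 : d w⁻¹ (θ c⁻¹) ≤ C * ε + 2 * ε := by
    have := hd.triangle w⁻¹ (θ c)⁻¹ (θ c⁻¹)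
    rw [ns_inv hd] at this
    linarith
  have g3 : d (v * w) (θ (b * c)) ≤ 2 * (C * ε) + ε := by
    have q1 := hd.triangle (v * w) (θ b * θ c) (θ (b * c))
    have q2 := ns_mul hd v w (θ b) (θ c)
    rw [hd.symm (θ b * θ c)] at q1
    linarith
  have g4 : d (v * w * v⁻¹) (θ (b * c * b⁻¹)) ≤ 3 * (C * ε) + 4 * ε := by
    have q1 := hd.triangle (v * w * v⁻¹) (θ (b * c) * θ b⁻¹) (θ (b * c * b⁻¹))
    have q2 := ns_mul hd (v * w) v⁻¹ (θ (b * c)) (θ b⁻¹)
    rw [hd.symm (θ (b * c) * θ b⁻¹)] at q1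
    linarith
  have q1 := hd.triangle (v * w * v⁻¹ * w⁻¹) (θ (b * c * b⁻¹) * θ c⁻¹) (θ (b * c * b⁻¹ * c⁻¹))
  have q2 := ns_mul hd (v * w * v⁻¹) w⁻¹ (θ (b * c * b⁻¹)) (θ c⁻¹)
  rw [hd.symm (θ (b * c * b⁻¹) * θ c⁻¹)] at q1
  linarith

lemma nsGood_of_mem {G : Type u} [Group G] (P : Subgroup G) (p : P) (hp : p ∈ commutator P) :
    NsGood P (p : G) := by
  rw [commutator_eq_closure] at hp
  induction hp using Subgroup.closure_induction with
  | mem z hz =>
    obtain ⟨b, c, rfl⟩ := hz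
    have := nsGood_commutator P b.2 c.2
    simpa [commutatorElement_def] using this
  | one => exact nsGood_one P
  | mul a b _ _ ha hb => exact nsGood_mul P ha hb
  | inv a _ ha => exact nsGood_inv P ha

/-- If the theorem of Nikolov and Segal holds, then every weakly sofic group is span-sofic.
Proof. Otherwise take `ι, x, P` from `exists_core_of_not_spanSofic`. By `core_noFiniteQuotient`
and `commutator_eq_top_of_noFiniteQuotient`, `P` is perfect, so `x = ∏ [b_j, c_j]`, a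
finite product of commutators of elements of `P` (finite list). Apply the core property to the
finite set `F₁` of the `b_j, c_j`, get `F₀`, `C`, and the weak soficity of `G` for the finite set
consisting of `F₀`, all `b_j, c_j`, their inverses, products, commutators, partial products, with a
small `ε`. In the subgroup `E₀ = closure (range u)` of `E`: `v_{b_j}, v_{c_j} ∈ E₀`, so
`y := ∏ [v_{b_j}, v_{c_j}]` lies in the commutator subgroup of `E₀`, so by Nikolov-Segal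
(`m = |ι|`) `d y 1 ≤ f * C * ε`; and `d y (θ x) ≤ C' * ε`: contradiction with `1 ≤ d (θ x) 1`
if `ε` is small. -/
theorem spanSofic_of_weaklySofic (hNS : NikolovSegal) {G : Type u} [Group G]
    (h : WeaklySofic G) : SpanSofic G := by
  classical
  by_contra hcon
  obtain ⟨ι, _, x, P, hx, hP, hxP, hcore⟩ := exists_core_of_not_spanSofic hcon
  have hnf := core_noFiniteQuotient P hcore
  have : Group.FG P := (Group.fg_iff_subgroup_fg P).2 hP
  have hperf := commutator_eq_top_of_noFiniteQuotient hnf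
  obtain ⟨F₁, hF₁, hgood⟩ := nsGood_of_mem P ⟨x, hxP⟩ (by rw [hperf]; exact Subgroup.mem_top _)
  obtain ⟨F₀, _, C, hC, hcore'⟩ := hcore F₁ hF₁
  obtain ⟨F₂, C', hC', hgood'⟩ := hgood C hC
  obtain ⟨m, ⟨eqv⟩⟩ := Finite.exists_equiv_fin ι
  obtain ⟨f, hf⟩ := hNS m
  set D : ℝ := C' + f * C + 1 with hD
  have hDpos : 0 < D := by positivity
  set ε : ℝ := 1 / (2 * D) with hε
  have hεpos : 0 < ε := by positivity
  obtain ⟨E, gE, fE, d, θ, hd, happ, hsep⟩ := h (F₀ ∪ F₂ ∪ {x}) ε hεpos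
  have hA : Apx d θ (F₀ ∪ F₂ ∪ {x}) ε := happ
  obtain ⟨u, hu, hv⟩ := hcore' E gE fE d θ ε hd hεpos.le
    (hA.ns_mono (by intro z hz; simp [hz]))
  obtain ⟨y, hy, hy'⟩ := hgood' E gE fE d θ ε hd hεpos.le
    (hA.ns_mono (by intro z hz; simp [hz])) (Subgroup.closure (Set.range u)) hv
  obtain ⟨l, hl1, hl2, hl3⟩ := hf (Subgroup.closure (Set.range u)) inferInstance inferInstance
    (fun i => ⟨u (eqv.symm i), Subgroup.subset_closure ⟨_, rfl⟩⟩) (by
      have h1 : (Set.range fun i : Fin m =>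
          (⟨u (eqv.symm i), Subgroup.subset_closure ⟨_, rfl⟩⟩ :
            Subgroup.closure (Set.range u))) =
          ((Subgroup.closure (Set.range u)).subtype) ⁻¹' (Set.range u) := by
        ext z
        constructor
        · rintro ⟨i, rfl⟩
          exact ⟨_, rfl⟩
        · rintro ⟨i, hi⟩
          refine ⟨eqv i, ?_⟩
          apply Subtype.ext
          simpa using hi
      rw [h1]
      exact Subgroup.closure_closure_coe_preimage) y hy
  have hy1 : d (y : E) 1 ≤ f * (C * ε) := by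
    have h2 : (l.map (Subgroup.closure (Set.range u)).subtype).prod = (y : E) := by
      rw [← hl3, ← map_list_prod]
      rfl
    rw [← h2]
    refine (ns_list hd (C * ε) _ ?_).trans ?_
    · intro z hz
      obtain ⟨z', hz', rfl⟩ := List.mem_map.1 hz
      obtain ⟨i, g, hg | hg⟩ := hl2 z' hz'
      · rw [hg]
        simp only [Subgroup.subtype_apply, Subgroup.coe_mul, Subgroup.coe_inv]
        rw [ns_conj hd]
        exact hu _
      · rw [hg]
        simp only [Subgroup.subtype_apply, Subgroup.coe_mul, Subgroup.coe_inv]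
        rw [ns_conj hd]
        have := ns_inv hd (u (eqv.symm i)) 1
        rw [inv_one] at this
        rw [this]
        exact hu _
    · rw [List.length_map]
      have : (l.length : ℝ) ≤ f := by exact_mod_cast hl1
      exact mul_le_mul_of_nonneg_right this (by positivity)
  have h3 := hsep x (by simp) hx
  have h4 := hd.triangle (θ x) y 1
  rw [hd.symm (θ x) y] at h4
  have h5 : D * ε = 1 / 2 := by
    rw [hε]
    field_simp
  have h6 : (C' + f * C) * ε ≤ D * ε := mul_le_mul_of_nonneg_right (by rw [hD]; linarith) hεpos.le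
  have h7 : d (y : E) (θ x) ≤ C' * ε := hy'
  have h8 : (C' + f * C) * ε = C' * ε + f * (C * ε) := by ring
  linarith

end Pool.Agent.W_f2b0dc_h15
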