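import Mathlib

/-!
# The wreath product and cocycles
-/

namespace Pool.Agent.W_f2b0dc_h15

universe u v w

/-- the wreath product of `E` with the group `Q` acting on `X`: `(u, r)` acts on `E × X` by
`(e, y) ↦ (u y * e, r • y)` -/
@[ext] structure Wr (E X Q : Type) where
  u : X → E
  r : Q

namespace Wr

variable {E X Q : Type} [Group E] [Group Q] [MulAction Q X]

instance : Mul (Wr E X Q) := ⟨fun x y => ⟨fun z => x.u (y.r • z) * y.u z, x.r * y.r⟩⟩
instance : One (Wr E X Q) := ⟨⟨fun _ => 1, 1⟩⟩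
instance : Inv (Wr E X Q) := ⟨fun x => ⟨fun z => (x.u (x.r⁻¹ • z))⁻¹, x.r⁻¹⟩⟩

@[simp] lemma mul_u (x y : Wr E X Q) (z : X) : (x * y).u z = x.u (y.r • z) * y.u z := rfl
@[simp] lemma mul_r (x y : Wr E X Q) : (x * y).r = x.r * y.r := rfl
@[simp] lemma one_u (z : X) : (1 : Wr E X Q).u z = 1 := rfl
@[simp] lemma one_r : (1 : Wr E X Q).r = 1 := rfl
@[simp] lemma inv_u (x : Wr E X Q) (z : X) : (x⁻¹).u z = (x.u (x.r⁻¹ • z))⁻¹ := rfl
@[simp] lemma inv_r (x : Wr E X Q) : (x⁻¹).r = x.r⁻¹ := rfl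

instance : Group (Wr E X Q) :=
  Group.ofLeftAxioms
    (by intro x y z; ext <;> simp [mul_assoc, mul_smul])
    (by intro x; ext <;> simp)
    (by intro x; ext <;> simp)

instance [Finite E] [Finite X] [Finite Q] : Finite (Wr E X Q) :=
  Finite.of_injective (fun x : Wr E X Q => (x.u, x.r)) (by
    intro x y h
    simp only [Prod.mk.injEq] at h
    exact Wr.ext h.1 h.2)

/-- the projection -/
def proj : Wr E X Q →* Q where
  toFun x := x.r
  map_one' := rfl
  map_mul' _ _ := rfl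

@[simp] lemma proj_apply (x : Wr E X Q) : proj x = x.r := rfl

/-- the homomorphism given by a homomorphism and a cochain -/
def lift {α : Type u} (φ : FreeGroup α →* Q) (c : X → α → E) : FreeGroup α →* Wr E X Q :=
  FreeGroup.lift fun t => ⟨fun y => c y t, φ (FreeGroup.of t)⟩

lemma proj_comp_lift {α : Type u} (φ : FreeGroup α →* Q) (c : X → α → E) :
    (proj : Wr E X Q →* Q).comp (lift φ c) = φ := by
  ext t
  simp [lift]

@[simp] lemma lift_r {α : Type u} (φ : FreeGroup α →* Q) (c : X → α → E) (f : FreeGroup α) :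
    (lift φ c f).r = φ f := by
  have := DFunLike.congr_fun (proj_comp_lift φ c) f
  simpa using this

lemma lift_of_u {α : Type u} (φ : FreeGroup α →* Q) (c : X → α → E) (t : α) (y : X) :
    (lift φ c (FreeGroup.of t)).u y = c y t := by
  simp [lift]

lemma lift_of_mul_u {α : Type u} (φ : FreeGroup α →* Q) (c : X → α → E) (t : α)
    (f : FreeGroup α) (y : X) :
    (lift φ c (FreeGroup.of t * f)).u y = c (φ f • y) t * (lift φ c f).u y := by
  simp [lift_of_u]

lemma lift_inv_of_mul_u {α : Type u} (φ : FreeGroup α →* Q) (c : X → α → E) (t : α)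
    (f : FreeGroup α) (y : X) :
    (lift φ c ((FreeGroup.of t)⁻¹ * f)).u y =
      (c ((φ (FreeGroup.of t))⁻¹ • φ f • y) t)⁻¹ * (lift φ c f).u y := by
  simp [lift_of_u]

lemma conj_u {x y : Wr E X Q} {b : X} (h : y.r • (x.r • b) = x.r • b) :
    (x⁻¹ * y * x).u b = (x.u b)⁻¹ * y.u (x.r • b) * x.u b := by
  simp [h]

/-- on the stabiliser of `b`, the map `x ↦ x.u b` is a homomorphism -/
lemma u_mem_closure {b : X} {S : Set (Wr E X Q)} (hS : ∀ x ∈ S, x.r • b = b) {z : Wr E X Q}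
    (hz : z ∈ Subgroup.closure S) :
    z.r • b = b ∧ z.u b ∈ Subgroup.closure ((fun x : Wr E X Q => x.u b) '' S) := by
  induction hz using Subgroup.closure_induction with
  | mem x hx => exact ⟨hS x hx, Subgroup.subset_closure ⟨x, hx, rfl⟩⟩
  | one => exact ⟨by simp, by simp⟩
  | mul x y _ _ hx hy =>
    refine ⟨by simp [mul_smul, hx.1, hy.1], ?_⟩
    rw [mul_u, hy.1]
    exact mul_mem hx.2 hy.2
  | inv x _ hx =>
    have h1 : x.r⁻¹ • b = b := by rw [inv_smul_eq_iff, hx.1]
    refine ⟨by simp [h1], ?_⟩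
    rw [inv_u, h1]
    exact inv_mem hx.2

end Wr

end Pool.Agent.W_f2b0dc_h15
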