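import Pool.Agent.W_f2b0dc_h15.Base
import Pool.Agent.W_f2b0dc_h15.Wr

/-!
# Paths in the finite diagram spanned by finitely many closed words
-/

namespace Pool.Agent.W_f2b0dc_h15

open Pool.Agent.W_MP_f2b0dc_al

universe u v w

section

variable {α : Type u} {Q X J : Type} [Group Q] [MulAction Q X] (φ : FreeGroup α →* Q) (b : X)
  (wd : J → List (α × Bool)) (x : J → X)

/-- the `k`-th vertex of the trace of the word `wd j` from `x j` (counted from the left end) -/
def vtx (j : J) (k : ℕ) : X := φ (FreeGroup.mk ((wd j).drop k)) • x j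

/-- the edges of the diagram -/
def Edge (y : X) (t : α) : Prop :=
  ∃ j k, ∃ hk : k < (wd j).length,
    ((wd j)[k] = (t, true) ∧ y = vtx φ wd x j (k + 1)) ∨
    ((wd j)[k] = (t, false) ∧ y = vtx φ wd x j k)

/-- labels of paths in the diagram from the base point `b` -/
inductive Path : FreeGroup α → X → Prop
  | one : Path 1 b
  | pos (f : FreeGroup α) (y : X) (t : α) : Path f y → Edge φ wd x y t →
      Path (FreeGroup.of t * f) (φ (FreeGroup.of t) • y)
  | neg (f : FreeGroup α) (y : X) (t : α) : Path f (φ (FreeGroup.of t) • y) →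
      Edge φ wd x y t → Path ((FreeGroup.of t)⁻¹ * f) y

variable {φ b wd x}

lemma Path.smul {f : FreeGroup α} {y : X} (h : Path φ b wd x f y) : φ f • b = y := by
  induction h with
  | one => simp
  | pos f y t _ _ ih => rw [map_mul, mul_smul, ih]
  | neg f y t _ _ ih => rw [map_mul, mul_smul, ih, map_inv, inv_smul_smul]

lemma Path.mul {f : FreeGroup α} (hf : Path φ b wd x f b) {f' : FreeGroup α} {y : X}
    (h : Path φ b wd x f' y) : Path φ b wd x (f' * f) y := by
  induction h with
  | one => simpa using hf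
  | pos f' y t _ he ih => rw [mul_assoc]; exact Path.pos _ _ _ ih he
  | neg f' y t _ he ih => rw [mul_assoc]; exact Path.neg _ _ _ ih he

lemma Path.inv_mul {f' : FreeGroup α} {y : X} (h : Path φ b wd x f' y) :
    ∀ {f : FreeGroup α}, Path φ b wd x f y → Path φ b wd x (f'⁻¹ * f) b := by
  induction h with
  | one => intro f hf; simpa using hf
  | pos f' y t _ he ih =>
    intro f hf
    have := ih (Path.neg _ _ _ hf he)
    rwa [← mul_assoc, ← mul_inv_rev] at this
  | neg f' y t _ he ih =>
    intro f hf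
    have := ih (Path.pos _ _ _ hf he)
    rw [mul_inv_rev, inv_inv, mul_assoc]
    exact this

variable (φ b wd x) in
/-- the group of labels of closed paths -/
def loops : Subgroup (FreeGroup α) where
  carrier := {f | Path φ b wd x f b}
  one_mem' := Path.one
  mul_mem' := fun h h' => Path.mul h' h
  inv_mem' := fun {f} h => by simpa using Path.inv_mul h Path.one

lemma mem_loops {f : FreeGroup α} : f ∈ loops φ b wd x ↔ Path φ b wd x f b := Iff.rfl

lemma finite_edges [Finite J] : {p : X × α | Edge φ wd x p.1 p.2}.Finite := by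
  classical
  have : {p : X × α | Edge φ wd x p.1 p.2} ⊆ ⋃ j : J, ⋃ k : Fin (wd j).length,
      {(vtx φ wd x j (k + 1), ((wd j)[(k : ℕ)]).1), (vtx φ wd x j k, ((wd j)[(k : ℕ)]).1)} := by
    rintro ⟨y, t⟩ ⟨j, k, hk, h⟩
    simp only [Set.mem_iUnion]
    refine ⟨j, ⟨k, hk⟩, ?_⟩
    rcases h with ⟨h1, h2⟩ | ⟨h1, h2⟩
    · left; simp only [h1]; exact Prod.ext h2 rfl
    · right; simp only [h1]; exact Prod.ext h2 rfl
  exact (Set.finite_iUnion fun j => Set.finite_iUnion fun k => Set.toFinite _).subset this

/-- a choice of paths -/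
lemma exists_sec : ∃ s : X → FreeGroup α, s b = 1 ∧
    ∀ y, (∃ f, Path φ b wd x f y) → Path φ b wd x (s y) y := by
  classical
  refine ⟨fun y => if y = b then 1 else if h : ∃ f, Path φ b wd x f y then h.choose else 1,
    by simp, ?_⟩
  intro y hy
  by_cases h : y = b
  · subst h; simpa using Path.one
  · simp only [h, if_false, dif_pos hy]
    exact hy.choose_spec

variable {s : X → FreeGroup α} (hs1 : s b = 1)
  (hs : ∀ y, (∃ f, Path φ b wd x f y) → Path φ b wd x (s y) y)

include hs1 hs

lemma loops_eq : loops φ b wd x = Subgroup.closure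
    ((fun p : X × α => (s (φ (FreeGroup.of p.2) • p.1))⁻¹ * FreeGroup.of p.2 * s p.1) ''
      {p : X × α | Edge φ wd x p.1 p.2 ∧ ∃ f, Path φ b wd x f p.1}) := by
  apply le_antisymm
  · intro f hf
    have key : ∀ (f : FreeGroup α) (y : X), Path φ b wd x f y → (s y)⁻¹ * f ∈ Subgroup.closure
        ((fun p : X × α => (s (φ (FreeGroup.of p.2) • p.1))⁻¹ * FreeGroup.of p.2 * s p.1) ''
      {p : X × α | Edge φ wd x p.1 p.2 ∧ ∃ f, Path φ b wd x f p.1}) := by
      intro f y h
      induction h with
      | one => rw [hs1]; simp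
      | pos f y t h he ih =>
        have h1 := mul_mem (Subgroup.subset_closure (Set.mem_image_of_mem
          (fun p : X × α => (s (φ (FreeGroup.of p.2) • p.1))⁻¹ * FreeGroup.of p.2 * s p.1)
          (show (y, t) ∈ {p : X × α | Edge φ wd x p.1 p.2 ∧ ∃ f, Path φ b wd x f p.1} from
            ⟨he, f, h⟩))) ih
        convert h1 using 1
        simp [mul_assoc]
      | neg f y t h he ih =>
        have h1 := mul_mem (inv_mem (Subgroup.subset_closure (Set.mem_image_of_mem
          (fun p : X × α => (s (φ (FreeGroup.of p.2) • p.1))⁻¹ * FreeGroup.of p.2 * s p.1)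
          (show (y, t) ∈ {p : X × α | Edge φ wd x p.1 p.2 ∧ ∃ f, Path φ b wd x f p.1} from
            ⟨he, _, Path.neg f y t h he⟩)))) ih
        convert h1 using 1
        simp [mul_assoc]
    have := key f b hf
    rwa [hs1, inv_one, one_mul] at this
  · rw [Subgroup.closure_le]
    rintro _ ⟨⟨y, t⟩, ⟨he, hy⟩, rfl⟩
    simp only
    have h1 : Path φ b wd x (FreeGroup.of t * s y) (φ (FreeGroup.of t) • y) :=
      Path.pos _ _ _ (hs y hy) he
    have h2 := hs _ ⟨_, h1⟩
    rw [SetLike.mem_coe, mem_loops, mul_assoc]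
    exact Path.inv_mul h2 h1

lemma loops_fg [Finite J] : (loops φ b wd x).FG := by
  classical
  rw [loops_eq hs1 hs, Subgroup.fg_iff]
  exact ⟨_, rfl, ((finite_edges (φ := φ) (wd := wd) (x := x)).subset (fun p hp => hp.1)).image _⟩

end

end Pool.Agent.W_f2b0dc_h15
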