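import Pool.Agent.W_f2b0dc_h15.Base

/-!
# Reduction: no bad family implies span-sofic
-/

namespace Pool.Agent.W_f2b0dc_h15

open Pool.Agent.W_MP_f2b0dc_al

universe u v w

section Mu

variable {Q : Type} [Group Q]

open scoped Classical in
/-- the weight of an element: `1` on `T` and `K` outside -/
noncomputable def redWt (T : Set Q) (K : ℕ) (c : Q) : ℕ := if c ∈ T then 1 else K

/-- the values of the total weights of the finite sets whose span contains `x` -/
def redVals (T : Set Q) (K : ℕ) (x : Q) : Set ℕ :=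
  {m | ∃ S : Finset Q, x ∈ Subgroup.closure (S : Set Q) ∧ ∑ s ∈ S, redWt T K s = m}

/-- the smallest total weight of a finite set whose span contains `x` -/
noncomputable def redMu (T : Set Q) (K : ℕ) (x : Q) : ℕ := sInf (redVals T K x)

lemma redMu_exists (T : Set Q) (K : ℕ) (x : Q) :
    ∃ S : Finset Q, x ∈ Subgroup.closure (S : Set Q) ∧ ∑ s ∈ S, redWt T K s = redMu T K x := by
  have hne : (redVals T K x).Nonempty := by
    refine ⟨_, {x}, ?_, rfl⟩
    apply Subgroup.subset_closure
    simp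
  exact Nat.sInf_mem hne

lemma redMu_le (T : Set Q) (K : ℕ) {x : Q} {S : Finset Q}
    (hx : x ∈ Subgroup.closure (S : Set Q)) : redMu T K x ≤ ∑ s ∈ S, redWt T K s :=
  Nat.sInf_le ⟨S, hx, rfl⟩

omit [Group Q] in
lemma redWt_pos (T : Set Q) {K : ℕ} (hK : 0 < K) (c : Q) : 0 < redWt T K c := by
  unfold redWt
  split_ifs
  · exact Nat.one_pos
  · exact hK

lemma redMu_eq_zero (T : Set Q) {K : ℕ} (hK : 0 < K) (x : Q) : redMu T K x = 0 ↔ x = 1 := by
  constructor
  · intro h
    obtain ⟨S, hx, hS⟩ := redMu_exists T K x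
    rw [h] at hS
    have hS0 : S = ∅ := by
      by_contra hne
      obtain ⟨s, hs⟩ := Finset.nonempty_iff_ne_empty.2 hne
      have := Finset.sum_eq_zero_iff.1 hS s hs
      have := redWt_pos T hK s
      omega
    rw [hS0] at hx
    simpa using hx
  · rintro rfl
    have h := redMu_le T K (x := (1 : Q)) (S := ∅) (Subgroup.one_mem _)
    simpa using h

lemma redMu_inv (T : Set Q) (K : ℕ) (x : Q) : redMu T K x⁻¹ = redMu T K x := by
  have h1 : ∀ y : Q, redMu T K y⁻¹ ≤ redMu T K y := by
    intro y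
    obtain ⟨S, hy, hS⟩ := redMu_exists T K y
    rw [← hS]
    exact redMu_le T K (Subgroup.inv_mem _ hy)
  apply le_antisymm (h1 x)
  have := h1 x⁻¹
  rwa [inv_inv] at this

lemma redMu_mul (T : Set Q) (K : ℕ) (x y : Q) :
    redMu T K (x * y) ≤ redMu T K x + redMu T K y := by
  classical
  obtain ⟨S, hx, hS⟩ := redMu_exists T K x
  obtain ⟨S', hy, hS'⟩ := redMu_exists T K y
  rw [← hS, ← hS']
  have hxy : x * y ∈ Subgroup.closure ((S ∪ S' : Finset Q) : Set Q) := by
    apply Subgroup.mul_mem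
    · exact Subgroup.closure_mono (by rw [Finset.coe_union]; exact Set.subset_union_left) hx
    · exact Subgroup.closure_mono (by rw [Finset.coe_union]; exact Set.subset_union_right) hy
  refine (redMu_le T K hxy).trans ?_
  rw [← Finset.sum_union_inter]
  exact Nat.le_add_right _ _

lemma redMu_conj_le {T : Set Q} (hT : ∀ c ∈ T, ∀ g : Q, g * c * g⁻¹ ∈ T) {K : ℕ} (hK : 0 < K)
    (g x : Q) : redMu T K (g * x * g⁻¹) ≤ redMu T K x := by
  classical
  obtain ⟨S, hx, hS⟩ := redMu_exists T K x
  rw [← hS]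
  have hmem : g * x * g⁻¹ ∈ Subgroup.closure
      ((S.image (fun s => g * s * g⁻¹) : Finset Q) : Set Q) := by
    have h1 : (MulAut.conj g).toMonoidHom x ∈
        (Subgroup.closure (S : Set Q)).map (MulAut.conj g).toMonoidHom :=
      Subgroup.mem_map_of_mem _ hx
    rw [MonoidHom.map_closure] at h1
    have h2 : ((MulAut.conj g).toMonoidHom : Q → Q) '' (S : Set Q)
        = ((S.image (fun s => g * s * g⁻¹) : Finset Q) : Set Q) := by
      rw [Finset.coe_image]
      rfl
    rw [h2] at h1
    exact h1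
  refine (redMu_le T K hmem).trans ?_
  rw [Finset.sum_image (by
    intro a _ b _ hab
    simpa using hab)]
  apply Finset.sum_le_sum
  intro s _
  unfold redWt
  by_cases hs : s ∈ T
  · rw [if_pos hs, if_pos (hT s hs g)]
  · rw [if_neg hs]
    split_ifs
    · exact hK
    · exact le_rfl

lemma redMu_conj {T : Set Q} (hT : ∀ c ∈ T, ∀ g : Q, g * c * g⁻¹ ∈ T) {K : ℕ} (hK : 0 < K)
    (g x : Q) : redMu T K (g * x * g⁻¹) = redMu T K x := by
  apply le_antisymm (redMu_conj_le hT hK g x)
  have h := redMu_conj_le hT hK g⁻¹ (g * x * g⁻¹)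
  have h2 : g⁻¹ * (g * x * g⁻¹) * g⁻¹⁻¹ = x := by group
  rwa [h2] at h

omit [Group Q] in
lemma red_sum_biUnion_le [DecidableEq Q] (S : Finset Q) (U : Q → Finset Q) (f : Q → ℕ) :
    ∑ x ∈ S.biUnion U, f x ≤ ∑ s ∈ S, ∑ x ∈ U s, f x := by
  induction S using Finset.induction_on with
  | empty => simp
  | insert a S ha ih =>
    rw [Finset.biUnion_insert, Finset.sum_insert ha]
    have h := Finset.sum_union_inter (s₁ := U a) (s₂ := S.biUnion U) (f := f)
    omega

lemma redMu_span (T : Set Q) (K : ℕ) (S : Finset Q) (x : Q)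
    (hx : x ∈ Subgroup.closure (S : Set Q)) : redMu T K x ≤ ∑ s ∈ S, redMu T K s := by
  classical
  choose U hU hUs using fun s => redMu_exists T K s
  have hmem : x ∈ Subgroup.closure ((S.biUnion U : Finset Q) : Set Q) := by
    have hle : Subgroup.closure (S : Set Q) ≤
        Subgroup.closure ((S.biUnion U : Finset Q) : Set Q) := by
      rw [Subgroup.closure_le]
      intro s hs
      refine Subgroup.closure_mono ?_ (hU s)
      intro c hc
      rw [Finset.mem_coe, Finset.mem_biUnion]
      exact ⟨s, hs, hc⟩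
    exact hle hx
  refine (redMu_le T K hmem).trans ?_
  refine (red_sum_biUnion_le _ _ _).trans ?_
  rw [Finset.sum_congr rfl (fun s _ => hUs s)]

lemma redMu_le_one {T : Set Q} (K : ℕ) {c : Q} (hc : c ∈ T) : redMu T K c ≤ 1 := by
  have h := redMu_le T K (x := c) (S := {c}) (Subgroup.subset_closure (by simp))
  rw [Finset.sum_singleton] at h
  unfold redWt at h
  rwa [if_pos hc] at h

/-- the metric -/
noncomputable def redD (T : Set Q) (K : ℕ) (x y : Q) : ℝ := (redMu T K (x⁻¹ * y) : ℝ) / K

lemma redD_one (T : Set Q) (K : ℕ) (x : Q) : redD T K x 1 = (redMu T K x : ℝ) / K := by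
  unfold redD
  rw [mul_one, redMu_inv]

lemma redD_metric {T : Set Q} (hT : ∀ c ∈ T, ∀ g : Q, g * c * g⁻¹ ∈ T) {K : ℕ} (hK : 0 < K) :
    IsBiInvMetric (redD T K) := by
  have hK' : (0 : ℝ) < K := by exact_mod_cast hK
  constructor
  · intro a b
    unfold redD
    rw [div_eq_zero_iff]
    constructor
    · rintro (h | h)
      · have h' : redMu T K (a⁻¹ * b) = 0 := by exact_mod_cast h
        rw [redMu_eq_zero T hK] at h'
        exact (inv_mul_eq_one.1 h')
      · exact absurd h hK'.ne'
    · rintro rfl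
      left
      have : redMu T K (a⁻¹ * a) = 0 := (redMu_eq_zero T hK _).2 (inv_mul_cancel a)
      exact_mod_cast this
  · intro a b
    unfold redD
    rw [← redMu_inv T K (a⁻¹ * b)]
    simp
  · intro a b c
    unfold redD
    rw [← add_div]
    apply div_le_div_of_nonneg_right _ hK'.le
    have h : a⁻¹ * c = (a⁻¹ * b) * (b⁻¹ * c) := by group
    rw [h]
    exact_mod_cast redMu_mul T K _ _
  · intro x a b
    unfold redD
    have h : (x * a)⁻¹ * (x * b) = a⁻¹ * b := by group
    rw [h]
  · intro x a b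
    unfold redD
    have h : (a * x)⁻¹ * (b * x) = x⁻¹ * (a⁻¹ * b) * x⁻¹⁻¹ := by group
    rw [h, redMu_conj hT hK]

/-- a small value gives few elements of `T` -/
lemma redMu_small {T : Set Q} {K : ℕ} {x : Q} (h : redMu T K x < K) :
    ∃ S : Finset Q, x ∈ Subgroup.closure (S : Set Q) ∧ (∀ s ∈ S, s ∈ T) ∧ S.card < K := by
  have hK : 0 < K := lt_of_le_of_lt (Nat.zero_le _) h
  obtain ⟨S, hx, hS⟩ := redMu_exists T K x
  refine ⟨S, hx, ?_, ?_⟩
  · intro s hs
    by_contra hsT
    have h1 : redWt T K s ≤ ∑ s ∈ S, redWt T K s :=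
      Finset.single_le_sum (f := fun s => redWt T K s) (fun _ _ => Nat.zero_le _) hs
    unfold redWt at h1
    rw [if_neg hsT] at h1
    unfold redWt at hS
    omega
  · have h1 : S.card • 1 ≤ ∑ s ∈ S, redWt T K s :=
      Finset.card_nsmul_le_sum _ _ _ (fun s _ => redWt_pos T hK s)
    rw [smul_eq_mul, mul_one] at h1
    omega

end Mu

/-- If no element `a` outside of the kernel of `FreeGroup G → G` is bad for a finite family of
elements of the kernel, then `G` is span-sofic.

Proof. Let `F : Finset G` (finite subset of `G`), `ε > 0`, choose `K : ℕ` with `1 ≤ ε * K`, `0 < K`.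
Take `ι₀ := F × F` (as subtypes), `g (x, y) = (of (x * y))⁻¹ * (of x * of y)` (in the kernel) and
`ι := ι₀ × Fin K`, `g' (i, k) = g i`. For every `x ∈ F`, `x ≠ 1`, `a := of x` is not bad for `g'`,
so there are `Q_x`, `φ_x` with `Sol (of x) g' φ_x = ∅`. Let `Q := ∀ x : {x ∈ F, x ≠ 1}, Q_x` (a
finite group; pass to a group in `Type` if needed: the index type lives in `Type u`, so use
`Fin n` and an enumeration of that finset) and `φ` the product map; still `Sol (of x) g' φ = ∅`
for all these `x`, since a solution in `Q` projects to one in `Q_x`.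
Let `T := {c | ∃ i, IsConj c (φ (g i))}`; weight `wt c = 1` for `c ∈ T`, `wt c = K` otherwise;
`μ x := the minimum of ∑ s ∈ S, wt s` over all finsets `S` of `Q` with `x ∈ closure S`;
`d x y := (μ (x⁻¹ * y)) / K` is a bi-invariant metric with the span property (if `x` is in the
closure of `S`, take the union of optimal finsets for the elements of `S`), `μ (φ (g i)) ≤ 1`, so
`d (φ (of (x*y))) (φ (of x) * φ (of y)) ≤ 1 / K ≤ ε`, and `μ (φ (of x)) ≥ K` for `1 ≠ x ∈ F`: a
finset `S` of total weight `< K` consists of fewer than `K` elements of `T`, and if `φ (of x)`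
were in its closure, enumerating `S` (`s_k` conjugate of `φ (g i_k)`, `k < |S| < K`) would
give an element of `Sol (of x) g' φ`. -/
theorem spanSofic_of_not_bad {G : Type u} [Group G]
    (h : ∀ (ι : Type) (_ : Finite ι) (a : FreeGroup G) (g : ι → FreeGroup G),
      (∀ i, ev (g i) = 1) → ev a ≠ 1 → ¬ Bad a g) : SpanSofic G := by
  classical
  intro F ε hε
  obtain ⟨K, hKε⟩ := exists_nat_gt (1 / ε)
  have hK' : (0 : ℝ) < K := lt_of_lt_of_le (by positivity) hKε.le
  have hK : 0 < K := by exact_mod_cast hK'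
  have hKε' : (1 : ℝ) / K ≤ ε := by
    rw [div_le_iff₀ hK']
    rw [div_lt_iff₀ hε] at hKε
    linarith
  -- enumeration of `F`
  obtain ⟨n, e, he⟩ : ∃ (n : ℕ) (e : Fin n → G), ∀ x ∈ F, ∃ i, e i = x := by
    refine ⟨F.card, fun i => (F.equivFin.symm i : G), ?_⟩
    intro x hx
    refine ⟨F.equivFin ⟨x, hx⟩, ?_⟩
    simp
  set g : Fin n × Fin n → FreeGroup G := fun p =>
    (FreeGroup.of (e p.1 * e p.2))⁻¹ * (FreeGroup.of (e p.1) * FreeGroup.of (e p.2)) with hg
  set g' : (Fin n × Fin n) × Fin K → FreeGroup G := fun t => g t.1 with hg'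
  have hker : ∀ t, ev (g' t) = 1 := by
    intro t
    rw [hg', hg]
    simp
  have hex : ∀ i : Fin n, ∃ (Q : Type) (_ : Group Q) (_ : Finite Q) (φ : FreeGroup G →* Q),
      e i ≠ 1 → ¬ (Sol (FreeGroup.of (e i)) g' φ).Nonempty := by
    intro i
    by_cases hi : e i = 1
    · exact ⟨PUnit, inferInstance, inferInstance, 1, fun hne => absurd hi hne⟩
    · have hb := h ((Fin n × Fin n) × Fin K) inferInstance (FreeGroup.of (e i)) g' hker
        (by rwa [ev_of])
      unfold Bad at hb
      push Not at hb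
      obtain ⟨Q, iG, iF, φ, hφ⟩ := hb
      refine ⟨Q, iG, iF, φ, fun _ => ?_⟩
      rw [Set.not_nonempty_iff_eq_empty]
      exact hφ
  choose Q iG iF φ hφ using hex
  set Φ : FreeGroup G →* (∀ i, Q i) := MonoidHom.pi φ with hΦ
  set T : Set (∀ i, Q i) := {c | ∃ (p : Fin n × Fin n) (q : ∀ i, Q i), c = q⁻¹ * Φ (g p) * q}
    with hTdef
  have hT : ∀ c ∈ T, ∀ y : (∀ i, Q i), y * c * y⁻¹ ∈ T := by
    rintro c ⟨p, q, rfl⟩ y
    refine ⟨p, q * y⁻¹, ?_⟩
    group
  refine ⟨∀ i, Q i, inferInstance, inferInstance, redD T K, fun x => Φ (FreeGroup.of x),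
    redD_metric hT hK, ?_, ?_, ?_⟩
  · intro S x hx
    rw [redD_one]
    rw [Finset.sum_congr rfl (fun s _ => redD_one T K s), ← Finset.sum_div]
    apply div_le_div_of_nonneg_right _ hK'.le
    exact_mod_cast redMu_span T K S x hx
  · intro x hx y hy _
    obtain ⟨i, rfl⟩ := he x hx
    obtain ⟨j, rfl⟩ := he y hy
    have hmem : (Φ (FreeGroup.of (e i * e j)))⁻¹ *
        (Φ (FreeGroup.of (e i)) * Φ (FreeGroup.of (e j))) ∈ T := by
      refine ⟨(i, j), 1, ?_⟩
      rw [hg]
      simp
    have h1 := redMu_le_one K hmem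
    unfold redD
    refine le_trans ?_ hKε'
    apply div_le_div_of_nonneg_right _ hK'.le
    exact_mod_cast h1
  · intro x hx hx1
    obtain ⟨i, rfl⟩ := he x hx
    rw [redD_one, le_div_iff₀ hK', one_mul]
    by_contra hlt
    have hlt' : redMu T K (Φ (FreeGroup.of (e i))) < K := by
      rw [not_le] at hlt
      exact_mod_cast hlt
    obtain ⟨S, hxS, hST, hcard⟩ := redMu_small hlt'
    apply hφ i hx1
    -- enumerate `S`
    choose p c hpc using fun s : S => hST s.1 s.2
    obtain ⟨idx⟩ : Nonempty (S ↪ Fin K) := by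
      apply Function.Embedding.nonempty_of_card_le
      rw [Fintype.card_coe, Fintype.card_fin]
      exact hcard.le
    set jj : S → (Fin n × Fin n) × Fin K := fun s => (p s, idx s) with hjj
    have hinj : Function.Injective jj := by
      intro s s' hss
      apply idx.injective
      exact (Prod.ext_iff.1 hss).2
    set q : (Fin n × Fin n) × Fin K → (∀ i, Q i) := Function.extend jj c (fun _ => 1) with hq
    refine ⟨fun t => q t i, ?_⟩
    have hsub : (S : Set (∀ i, Q i)) ⊆ Set.range (fun t => (q t)⁻¹ * Φ (g' t) * q t) := by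
      intro s hs
      refine ⟨jj ⟨s, hs⟩, ?_⟩
      have h1 : q (jj ⟨s, hs⟩) = c ⟨s, hs⟩ := hinj.extend_apply c _ _
      have h2 := hpc ⟨s, hs⟩
      simp only [h1]
      exact h2.symm
    have hmem := Subgroup.closure_mono hsub hxS
    have hmap := Subgroup.mem_map_of_mem (Pi.evalMonoidHom Q i) hmem
    rw [MonoidHom.map_closure, ← Set.range_comp] at hmap
    exact hmap

end Pool.Agent.W_f2b0dc_h15
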