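import Pool.Agent.W_f2b0dc_h15.Path

/-!
# Traces of the words, and transport of paths to another level
-/

namespace Pool.Agent.W_f2b0dc_h15

open Pool.Agent.W_MP_f2b0dc_al

universe u v w

section

variable {α : Type u} {Q X J : Type} [Group Q] [MulAction Q X] {φ : FreeGroup α →* Q} {b : X}
  {wd : J → List (α × Bool)} {x : J → X}

lemma mk_drop_true {l : List (α × Bool)} {k : ℕ} (hk : k < l.length) {t : α}
    (h : l[k] = (t, true)) :
    FreeGroup.mk (l.drop k) = FreeGroup.of t * FreeGroup.mk (l.drop (k + 1)) := by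
  rw [List.drop_eq_getElem_cons hk, h]
  rfl

lemma mk_drop_false {l : List (α × Bool)} {k : ℕ} (hk : k < l.length) {t : α}
    (h : l[k] = (t, false)) :
    FreeGroup.mk (l.drop k) = (FreeGroup.of t)⁻¹ * FreeGroup.mk (l.drop (k + 1)) := by
  rw [List.drop_eq_getElem_cons hk, h]
  rfl

lemma mk_drop_len (l : List (α × Bool)) {k : ℕ} (hk : l.length ≤ k) :
    FreeGroup.mk (l.drop k) = 1 := by
  rw [List.drop_eq_nil_of_le hk]
  rfl

lemma vtx_len (j : J) {k : ℕ} (hk : (wd j).length ≤ k) : vtx φ wd x j k = x j := by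
  rw [vtx, mk_drop_len _ hk, map_one, one_smul]

lemma vtx_zero (j : J) : vtx φ wd x j 0 = φ (FreeGroup.mk (wd j)) • x j := by
  rw [vtx, List.drop_zero]

lemma vtx_true {j : J} {k : ℕ} (hk : k < (wd j).length) {t : α} (h : (wd j)[k] = (t, true)) :
    vtx φ wd x j k = φ (FreeGroup.of t) • vtx φ wd x j (k + 1) := by
  rw [vtx, vtx, mk_drop_true hk h, map_mul, mul_smul]

lemma vtx_false {j : J} {k : ℕ} (hk : k < (wd j).length) {t : α} (h : (wd j)[k] = (t, false)) :
    vtx φ wd x j (k + 1) = φ (FreeGroup.of t) • vtx φ wd x j k := by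
  rw [vtx, vtx, mk_drop_false hk h, map_mul, mul_smul, map_inv, smul_inv_smul]

lemma edge_true {j : J} {k : ℕ} (hk : k < (wd j).length) {t : α} (h : (wd j)[k] = (t, true)) :
    Edge φ wd x (vtx φ wd x j (k + 1)) t := ⟨j, k, hk, Or.inl ⟨h, rfl⟩⟩

lemma edge_false {j : J} {k : ℕ} (hk : k < (wd j).length) {t : α} (h : (wd j)[k] = (t, false)) :
    Edge φ wd x (vtx φ wd x j k) t := ⟨j, k, hk, Or.inr ⟨h, rfl⟩⟩

/-- downward induction -/
lemma down_induction {n : ℕ} {p : ℕ → Prop} (h0 : ∀ k, n ≤ k → p k)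
    (h1 : ∀ k, k < n → p (k + 1) → p k) (k : ℕ) : p k := by
  by_cases hk : n ≤ k
  · exact h0 k hk
  · push Not at hk
    obtain ⟨m, rfl⟩ := Nat.exists_eq_add_of_lt hk
    clear hk
    induction m generalizing k with
    | zero => exact h1 k (by omega) (h0 _ (by omega))
    | succ m ih =>
      apply h1 k (by omega)
      have := ih (k + 1) (fun k' hk' => h0 k' (by omega)) (fun k' hk' => h1 k' (by omega))
      exact this

lemma path_trace {j : J} {s0 : FreeGroup α} (h : Path φ b wd x s0 (x j)) (k : ℕ) :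
    Path φ b wd x (FreeGroup.mk ((wd j).drop k) * s0) (vtx φ wd x j k) := by
  refine down_induction (n := (wd j).length)
    (p := fun k => Path φ b wd x (FreeGroup.mk ((wd j).drop k) * s0) (vtx φ wd x j k)) ?_ ?_ k
  · intro k hk
    rw [mk_drop_len _ hk, one_mul, vtx_len _ hk]
    exact h
  · intro k hk ih
    obtain ⟨t, e, hw⟩ : ∃ t e, (wd j)[k] = (t, e) := ⟨_, _, rfl⟩
    cases e with
    | true =>
      rw [mk_drop_true hk hw, vtx_true hk hw, mul_assoc]
      exact Path.pos _ _ _ ih (edge_true hk hw)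
    | false =>
      rw [mk_drop_false hk hw, mul_assoc]
      rw [vtx_false hk hw] at ih
      exact Path.neg _ _ _ ih (edge_false hk hw)

lemma no_path_trace {j : J} (h : ¬ ∃ f, Path φ b wd x f (x j)) (k : ℕ) :
    ¬ ∃ f, Path φ b wd x f (vtx φ wd x j k) := by
  refine down_induction (n := (wd j).length)
    (p := fun k => ¬ ∃ f, Path φ b wd x f (vtx φ wd x j k)) ?_ ?_ k
  · intro k hk
    rw [vtx_len _ hk]
    exact h
  · rintro k hk ih ⟨f, hf⟩
    apply ih
    obtain ⟨t, e, hw⟩ : ∃ t e, (wd j)[k] = (t, e) := ⟨_, _, rfl⟩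
    cases e with
    | true =>
      rw [vtx_true hk hw] at hf
      exact ⟨_, Path.neg _ _ _ hf (edge_true hk hw)⟩
    | false =>
      rw [vtx_false hk hw]
      exact ⟨_, Path.pos _ _ _ hf (edge_false hk hw)⟩

/-- transport to another level with the same pattern -/
lemma path_transport {Q' X' : Type} [Group Q'] [MulAction Q' X'] {φ' : FreeGroup α →* Q'} {b' : X'}
    {x' : J → X'} (j₀ : J) (hx : x j₀ = b) (hx' : x' j₀ = b')
    (hpat : ∀ j k j' k', k ≤ (wd j).length → k' ≤ (wd j').length →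
      vtx φ wd x j k = vtx φ wd x j' k' → vtx φ' wd x' j k = vtx φ' wd x' j' k')
    {f : FreeGroup α} {y : X} (h : Path φ b wd x f y) :
    ∃ j k, k ≤ (wd j).length ∧ y = vtx φ wd x j k ∧ φ' f • b' = vtx φ' wd x' j k := by
  induction h with
  | one => exact ⟨j₀, (wd j₀).length, le_rfl, by rw [vtx_len _ le_rfl, hx],
      by rw [vtx_len _ le_rfl, hx', map_one, one_smul]⟩
  | pos f y t _ he ih =>
    obtain ⟨j, k, hk, hy, hf⟩ := ih
    obtain ⟨i, l, hl, ⟨h1, h2⟩ | ⟨h1, h2⟩⟩ := he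
    · refine ⟨i, l, hl.le, by rw [vtx_true hl h1, ← h2], ?_⟩
      rw [map_mul, mul_smul, hf, hpat j k i (l + 1) hk hl (by rw [← hy, h2]), vtx_true hl h1]
    · refine ⟨i, l + 1, hl, by rw [vtx_false hl h1, ← h2], ?_⟩
      rw [map_mul, mul_smul, hf, hpat j k i l hk hl.le (by rw [← hy, h2]), vtx_false hl h1]
  | neg f y t _ he ih =>
    obtain ⟨j, k, hk, hy, hf⟩ := ih
    obtain ⟨i, l, hl, ⟨h1, h2⟩ | ⟨h1, h2⟩⟩ := he
    · refine ⟨i, l + 1, hl, h2, ?_⟩
      rw [map_mul, mul_smul, hf, map_inv, inv_smul_eq_iff, ← vtx_true hl h1]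
      exact hpat j k i l hk hl.le (by rw [← hy, h2, vtx_true hl h1])
    · refine ⟨i, l, hl.le, h2, ?_⟩
      rw [map_mul, mul_smul, hf, map_inv, inv_smul_eq_iff, ← vtx_false hl h1]
      exact hpat j k i (l + 1) hk hl (by rw [← hy, h2, vtx_false hl h1])

end

end Pool.Agent.W_f2b0dc_h15
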